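import Pool.Agent.MP_826def_gt.MU.Core

/-!
The sum of cocycles is commutative and only depends on the classes.
-/

namespace Pool.Agent.MP_826def_gt.BA

open Set Topology MU

noncomputable section

theorem add_contOn_ite {α β : Type} [TopologicalSpace α] [TopologicalSpace β] (φ : α → ℝ)
    (hφ : Continuous φ) (a b : β) :
    ContinuousOn (fun z => if 0 < φ z then a else b) {z | φ z ≠ 0} := by
  intro z hz
  refine ContinuousAt.continuousWithinAt ?_
  rcases lt_or_gt_of_ne hz with h | h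
  · have h1 : ∀ᶠ y in 𝓝 z, φ y < 0 := hφ.continuousAt.eventually (gt_mem_nhds h)
    refine (continuousAt_const (y := b)).congr ?_
    filter_upwards [h1] with y hy
    rw [if_neg (not_lt.2 hy.le)]
  · have h1 : ∀ᶠ y in 𝓝 z, 0 < φ y := hφ.continuousAt.eventually (lt_mem_nhds h)
    refine (continuousAt_const (y := a)).congr ?_
    filter_upwards [h1] with y hy
    rw [if_pos hy]

/-- Isomorphic cocycles, with constant isomorphisms on the two halves. -/
theorem add_eqv {X : Type} [TopologicalSpace X] (he : S_eqv) (c c' : Raw X)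
    (e : c'.V ≃L[ℂ] c.V) (φ : X × c'.V → ℝ) (hφ : Continuous φ) (u₁ u₂ : c.W →L[ℂ] c'.W)
    (v₁ v₂ : c'.W →L[ℂ] c.W) (hc : c.Good) (hc' : c'.Good)
    (hO : ∀ z : X × c'.V, z ∈ c'.O ↔ (z.1, e z.2) ∈ c.O) (hne : ∀ z ∈ c'.O, φ z ≠ 0)
    (hv₁ : ∀ w, v₁ (u₁ w) = w) (hv₂ : ∀ w, v₂ (u₂ w) = w)
    (h1 : ∀ z ∈ c'.O, 0 < φ z →
      (∀ w, u₁ (c.p (z.1, e z.2) (v₁ w)) = c'.p z w) ∧ u₁ (c.s (z.1, e z.2)) = c'.s z)
    (h2 : ∀ z ∈ c'.O, ¬ 0 < φ z →
      (∀ w, u₂ (c.p (z.1, e z.2) (v₂ w)) = c'.p z w) ∧ u₂ (c.s (z.1, e z.2)) = c'.s z) :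
    cls c = cls c' := by
  have hp : ContinuousOn (fun z : X × c'.V => c.p (z.1, e z.2)) c'.O :=
    hc.cp.comp (continuous_fst.prodMk (e.continuous.comp continuous_snd)).continuousOn
      fun z hz => (hO z).1 hz
  refine he c c' e c'.O (fun z => (if 0 < φ z then u₁ else u₂) ∘L c.p (z.1, e z.2))
    (fun z => c.p (z.1, e z.2) ∘L (if 0 < φ z then v₁ else v₂)) hc hc' hc'.op
    (fun z hz => hz.1) (fun z hz => (hO z).2 hz.1)
    (((add_contOn_ite φ hφ u₁ u₂).mono hne).clm_comp hp)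
    (hp.clm_comp ((add_contOn_ite φ hφ v₁ v₂).mono hne)) fun z hz => ?_
  have hz' := (hO z).1 hz
  have hi : ∀ w, c.p (z.1, e z.2) (c.p (z.1, e z.2) w) = c.p (z.1, e z.2) w := fun w =>
    congrArg (fun q : c.W →L[ℂ] c.W => q w) (hc.idem _ hz')
  refine ⟨hz, hz', ?_⟩
  by_cases h : 0 < φ z
  · simp only [if_pos h]
    refine ⟨ContinuousLinearMap.ext fun w => ?_, ContinuousLinearMap.ext fun w => ?_, ?_⟩
    · simp only [ContinuousLinearMap.comp_apply, hv₁, hi]
    · simp only [ContinuousLinearMap.comp_apply, hi, (h1 z hz h).1]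
    · simp only [ContinuousLinearMap.comp_apply, hc.sec _ hz', (h1 z hz h).2]
  · simp only [if_neg h]
    refine ⟨ContinuousLinearMap.ext fun w => ?_, ContinuousLinearMap.ext fun w => ?_, ?_⟩
    · simp only [ContinuousLinearMap.comp_apply, hv₂, hi]
    · simp only [ContinuousLinearMap.comp_apply, hi, (h2 z hz h).1]
    · simp only [ContinuousLinearMap.comp_apply, hc.sec _ hz', (h2 z hz h).2]

/-- The map `(a, b, t) ↦ (b, a, -t)`. -/
def addSwap (A B : Type) [NormedAddCommGroup A] [NormedSpace ℂ A] [NormedAddCommGroup B]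
    [NormedSpace ℂ B] : ((A × B) × ℂ) ≃L[ℂ] ((B × A) × ℂ) :=
  (ContinuousLinearEquiv.prodComm ℂ A B).prodCongr (ContinuousLinearEquiv.neg ℂ)

theorem addSwap_apply {A B : Type} [NormedAddCommGroup A] [NormedSpace ℂ A] [NormedAddCommGroup B]
    [NormedSpace ℂ B] (z : (A × B) × ℂ) : addSwap A B z = ((z.1.2, z.1.1), -z.2) := rfl

theorem add_ne {X : Type} (c d : Raw X) : ∀ z ∈ (c.add d).O, z.2.2.re ≠ 0 := fun _ hz =>
  hz.elim (fun h => h.1.ne') fun h => h.1.ne

theorem add_cont {X : Type} [TopologicalSpace X] (c d : Raw X) :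
    Continuous fun z : X × (c.add d).V => z.2.2.re :=
  Complex.continuous_re.comp (continuous_snd.comp continuous_snd)

theorem add_comm' {X : Type} [TopologicalSpace X] (g2 : S_good2) (he : S_eqv) (c d : Raw X)
    (hc : c.Good) (hd : d.Good) : cls (c.add d) = cls (d.add c) := by
  refine add_eqv he (c.add d) (d.add c) (addSwap d.V c.V) (fun z => z.2.2.re) (add_cont d c)
    (addSwap (c.W × d.V) (d.W × c.V)).toContinuousLinearMap
    (addSwap (c.W × d.V) (d.W × c.V)).toContinuousLinearMap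
    (addSwap (d.W × c.V) (c.W × d.V)).toContinuousLinearMap
    (addSwap (d.W × c.V) (c.W × d.V)).toContinuousLinearMap (g2.add hc hd) (g2.add hd hc)
    (fun z => ?_) (add_ne d c) (fun w => ?_) (fun w => ?_) (fun z _ h => ?_) fun z hz h => ?_
  · simp only [addSwap_apply, mem_ofPred_eq, Complex.neg_re, neg_pos, neg_lt_zero]
    exact or_comm
  · simp [addSwap_apply]
  · simp [addSwap_apply]
  · have h' : ¬ 0 < (-z.2.2).re := by
      rw [Complex.neg_re]
      linarith
    refine ⟨fun w => ?_, ?_⟩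
    · simp only [addSwap_apply, if_neg h', if_pos h, ContinuousLinearEquiv.coe_coe]
      exact Prod.ext rfl (neg_neg w.2)
    · simp only [addSwap_apply, if_neg h', if_pos h, ContinuousLinearEquiv.coe_coe]
      refine Prod.ext rfl ?_
      show -(-z.2.2 + 1) = z.2.2 - 1
      ring
  · have h' : 0 < (-z.2.2).re := by
      rw [Complex.neg_re]
      have := add_ne d c z hz
      rcases lt_or_gt_of_ne this with h3 | h3
      · linarith
      · exact absurd h3 h
    refine ⟨fun w => ?_, ?_⟩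
    · simp only [addSwap_apply, if_pos h', if_neg h, ContinuousLinearEquiv.coe_coe]
      exact Prod.ext rfl (neg_neg w.2)
    · simp only [addSwap_apply, if_pos h', if_neg h, ContinuousLinearEquiv.coe_coe]
      refine Prod.ext rfl ?_
      show -(-z.2.2 - 1) = z.2.2 + 1
      ring

theorem add_germ {X : Type} [TopologicalSpace X] (g2 : S_good2) (c d : Raw X)
    (O : Set (X × c.V)) (p : X × c.V → c.W →L[ℂ] c.W) (s : X × c.V → c.W) (hO : O ⊆ c.O)
    (hp : EqOn p c.p O) (hs : EqOn s c.s O) (hZ : c.Z ⊆ O) (hc : c.Good)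
    (hc' : (⟨c.V, c.W, O, p, s⟩ : Raw X).Good) (hd : d.Good) :
    cls (c.add d) = cls ((⟨c.V, c.W, O, p, s⟩ : Raw X).add d) := by
  refine cls_move (g2.add hc hd) (g2.add hc' hd) (Move.germ (c.add d) _ _ _ (fun z hz => ?_)
    (fun z hz => ?_) (fun z hz => ?_) fun z hz => ?_)
  · exact hz.imp (fun h => ⟨h.1, hO h.2⟩) id
  · rcases hz with h | h
    · simp only [if_pos h.1, hp h.2]
    · simp only [if_neg (not_lt.2 h.1.le)]
  · rcases hz with h | h
    · simp only [if_pos h.1, hs h.2]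
    · simp only [if_neg (not_lt.2 h.1.le)]
  · rcases hz.1 with h | h
    · refine Or.inl ⟨h.1, hZ ⟨h.2, ?_⟩⟩
      have h2 := hz.2
      simp only [if_pos h.1] at h2
      exact congrArg (fun w : (c.add d).W => w.1.1.1) h2
    · exact Or.inr h

theorem add_htpy {X : Type} [TopologicalSpace X] (g1 : S_good1) (g2 : S_good2)
    (C : Raw (X × unitInterval)) (d : Raw X) (hC : C.Good)
    (h0 : (C.pull fun x => (x, 0)).Good) (h1 : (C.pull fun x => (x, 1)).Good) (hd : d.Good) :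
    cls ((C.pull fun x => (x, 0)).add d) = cls ((C.pull fun x => (x, 1)).add d) :=
  cls_move (g2.add h0 hd) (g2.add h1 hd)
    (Move.htpy (C.add (d.pull Prod.fst)) (g2.add hC (g1.pull hd isProperMap_fst_of_compactSpace)))

theorem add_wemb {X : Type} [TopologicalSpace X] (g2 : S_good2) (he : S_eqv) (c d : Raw X)
    (W' : FD) (j : c.W →L[ℂ] W') (r : W' →L[ℂ] c.W) (hr : r ∘L j = ContinuousLinearMap.id ℂ c.W)
    (hc : c.Good) (hc' : (c.wemb W' j r).Good) (hd : d.Good) :
    cls (c.add d) = cls ((c.wemb W' j r).add d) := by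
  have hr' : ∀ w, r (j w) = w := fun w => congrArg (fun q : c.W →L[ℂ] c.W => q w) hr
  let u : (c.add d).W →L[ℂ] ((c.wemb W' j r).add d).W :=
    ((j.prodMap (ContinuousLinearMap.id ℂ d.V)).prodMap
      (ContinuousLinearMap.id ℂ (d.W × c.V))).prodMap (ContinuousLinearMap.id ℂ ℂ)
  let v : ((c.wemb W' j r).add d).W →L[ℂ] (c.add d).W :=
    ((r.prodMap (ContinuousLinearMap.id ℂ d.V)).prodMap
      (ContinuousLinearMap.id ℂ (d.W × c.V))).prodMap (ContinuousLinearMap.id ℂ ℂ)
  have hvu : ∀ w, v (u w) = w := fun w => Prod.ext (Prod.ext (Prod.ext (hr' _) rfl) rfl) rfl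
  refine add_eqv he (c.add d) ((c.wemb W' j r).add d) (ContinuousLinearEquiv.refl ℂ _)
    (fun z => z.2.2.re) (add_cont _ d) u u v v (g2.add hc hd) (g2.add hc' hd) (fun z => Iff.rfl)
    (add_ne _ d) hvu hvu (fun z _ h => ⟨fun w => ?_, ?_⟩) fun z _ h => ⟨fun w => ?_, ?_⟩
  · simp only [ContinuousLinearEquiv.refl_apply, if_pos h]
    rfl
  · simp only [ContinuousLinearEquiv.refl_apply, if_pos h]
    rfl
  · simp only [ContinuousLinearEquiv.refl_apply, if_neg h]
    exact Prod.ext (Prod.ext (Prod.ext (map_zero j) rfl) rfl) rfl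
  · simp only [ContinuousLinearEquiv.refl_apply, if_neg h]
    exact Prod.ext (Prod.ext (Prod.ext (map_zero j) rfl) rfl) rfl

theorem add_viso {X : Type} [TopologicalSpace X] (g2 : S_good2) (he : S_eqv) (c d : Raw X)
    (V' : FD) (e : V' ≃L[ℂ] c.V) (hc : c.Good) (hc' : (c.viso V' e).Good) (hd : d.Good) :
    cls (c.add d) = cls ((c.viso V' e).add d) := by
  let E : ((c.viso V' e).add d).V ≃L[ℂ] (c.add d).V :=
    (e.prodCongr (ContinuousLinearEquiv.refl ℂ d.V)).prodCongr (ContinuousLinearEquiv.refl ℂ ℂ)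
  let u : (c.add d).W →L[ℂ] ((c.viso V' e).add d).W :=
    ((ContinuousLinearMap.id ℂ (c.W × d.V)).prodMap
      ((ContinuousLinearMap.id ℂ d.W).prodMap e.symm.toContinuousLinearMap)).prodMap
      (ContinuousLinearMap.id ℂ ℂ)
  let v : ((c.viso V' e).add d).W →L[ℂ] (c.add d).W :=
    ((ContinuousLinearMap.id ℂ (c.W × d.V)).prodMap
      ((ContinuousLinearMap.id ℂ d.W).prodMap e.toContinuousLinearMap)).prodMap
      (ContinuousLinearMap.id ℂ ℂ)
  have hvu : ∀ w, v (u w) = w := fun w =>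
    Prod.ext (Prod.ext rfl (Prod.ext rfl (e.apply_symm_apply _))) rfl
  have hE : ∀ z : ((c.viso V' e).add d).V, E z = ((e z.1.1, z.1.2), z.2) := fun _ => rfl
  refine add_eqv he (c.add d) ((c.viso V' e).add d) E
    (fun z => z.2.2.re) (add_cont _ d) u u v v (g2.add hc hd) (g2.add hc' hd) (fun z => Iff.rfl)
    (add_ne _ d) hvu hvu (fun z _ h => ⟨fun w => ?_, ?_⟩) fun z _ h => ⟨fun w => ?_, ?_⟩
  · simp only [hE, if_pos h]
    exact Prod.ext (Prod.ext rfl (Prod.ext rfl (map_zero e.symm))) rfl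
  · simp only [hE, if_pos h]
    exact Prod.ext (Prod.ext rfl (Prod.ext rfl (map_zero e.symm))) rfl
  · simp only [hE, if_neg h]
    exact Prod.ext (Prod.ext rfl (Prod.ext rfl (e.symm_apply_apply _))) rfl
  · simp only [hE, if_neg h]
    exact Prod.ext (Prod.ext rfl (Prod.ext rfl (e.symm_apply_apply _))) rfl

/-- The map `(((a, x), b), t) ↦ (((a, b), t), x)`. -/
def addMove (A B E : Type) [NormedAddCommGroup A] [NormedSpace ℂ A] [NormedAddCommGroup B]
    [NormedSpace ℂ B] [NormedAddCommGroup E] [NormedSpace ℂ E] :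
    (((A × E) × B) × ℂ) ≃L[ℂ] (((A × B) × ℂ) × E) where
  toFun z := (((z.1.1.1, z.1.2), z.2), z.1.1.2)
  invFun z := (((z.1.1.1, z.2), z.1.1.2), z.1.2)
  map_add' _ _ := rfl
  map_smul' _ _ := rfl
  left_inv _ := rfl
  right_inv _ := rfl
  continuous_toFun := by fun_prop
  continuous_invFun := by fun_prop

/-- A continuous linear map between finite dimensional spaces. -/
def addL {A B : FD} (f : A → B) (h1 : ∀ x y, f (x + y) = f x + f y)
    (h2 : ∀ (a : ℂ) x, f (a • x) = a • f x) : A →L[ℂ] B :=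
  LinearMap.toContinuousLinearMap ⟨⟨f, h1⟩, h2⟩

theorem addL_apply {A B : FD} (f : A → B) (h1 : ∀ x y, f (x + y) = f x + f y)
    (h2 : ∀ (a : ℂ) x, f (a • x) = a • f x) (x : A) : addL f h1 h2 x = f x := rfl

theorem add_stab {X : Type} [TopologicalSpace X] (g1 : S_good1) (g2 : S_good2) (he : S_eqv)
    (c d : Raw X) (E : FD) (hc : c.Good) (hc' : (c.stab E).Good) (hd : d.Good) :
    cls (c.add d) = cls ((c.stab E).add d) := by
  rw [cls_move (g2.add hc hd) (g1.stab E (g2.add hc hd)) (Move.stab (c.add d) E)]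
  let u₁ : ((c.add d).stab E).W →L[ℂ] ((c.stab E).add d).W :=
    addL (fun w => ((((w.1.1.1.1, w.2), w.1.1.1.2), (w.1.1.2.1, (w.1.1.2.2, 0))), w.1.2))
      (fun x y => Prod.ext (Prod.ext rfl (Prod.ext rfl (Prod.ext rfl (add_zero _).symm))) rfl)
      fun a x => Prod.ext (Prod.ext rfl (Prod.ext rfl (Prod.ext rfl (smul_zero a).symm))) rfl
  let u₂ : ((c.add d).stab E).W →L[ℂ] ((c.stab E).add d).W :=
    addL (fun w => ((((w.1.1.1.1, 0), w.1.1.1.2), (w.1.1.2.1, (w.1.1.2.2, w.2))), w.1.2))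
      (fun x y => Prod.ext (Prod.ext (Prod.ext (Prod.ext rfl (add_zero _).symm) rfl) rfl) rfl)
      fun a x => Prod.ext (Prod.ext (Prod.ext (Prod.ext rfl (smul_zero a).symm) rfl) rfl) rfl
  let v₁ : ((c.stab E).add d).W →L[ℂ] ((c.add d).stab E).W :=
    addL (fun w => ((((w.1.1.1.1, w.1.1.2), (w.1.2.1, w.1.2.2.1)), w.2), w.1.1.1.2))
      (fun x y => rfl) fun a x => rfl
  let v₂ : ((c.stab E).add d).W →L[ℂ] ((c.add d).stab E).W :=
    addL (fun w => ((((w.1.1.1.1, w.1.1.2), (w.1.2.1, w.1.2.2.1)), w.2), w.1.2.2.2))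
      (fun x y => rfl) fun a x => rfl
  have hE : ∀ z : ((c.stab E).add d).V,
      addMove c.V d.V E z = (((z.1.1.1, z.1.2), z.2), z.1.1.2) := fun _ => rfl
  refine add_eqv he ((c.add d).stab E) ((c.stab E).add d) (addMove c.V d.V E)
    (fun z => z.2.2.re) (add_cont _ d) u₁ u₂ v₁ v₂ (g1.stab E (g2.add hc hd)) (g2.add hc' hd)
    (fun z => Iff.rfl) (add_ne _ d) (fun _ => rfl) (fun _ => rfl)
    (fun z _ h => ⟨fun w => ?_, ?_⟩) fun z _ h => ⟨fun w => ?_, ?_⟩
  · simp only [hE, if_pos h]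
    rfl
  · simp only [hE, if_pos h]
    rfl
  · simp only [hE, if_neg h]
    rfl
  · simp only [hE, if_neg h]
    rfl

theorem add_move {X : Type} [TopologicalSpace X] (g1 : S_good1) (g2 : S_good2) (he : S_eqv)
    (d : Raw X) (hd : d.Good) (c c' : Raw X) (hc : c.Good) (hc' : c'.Good) (m : Move c c') :
    cls (c.add d) = cls (c'.add d) := by
  cases m with
  | germ _ O p s hO hp hs hZ => exact add_germ g2 c d O p s hO hp hs hZ hc hc' hd
  | htpy C hC => exact add_htpy g1 g2 C d hC hc hc' hd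
  | stab _ E => exact add_stab g1 g2 he c d E hc hc' hd
  | viso _ V' e => exact add_viso g2 he c d V' e hc hc' hd
  | wemb _ W' j r hr => exact add_wemb g2 he c d W' j r hr hc hc' hd

theorem add (g1 : S_good1) (g2 : S_good2) (e : S_eqv) : S_add := by
  intro X _ c c' hc hc'
  refine ⟨?_, add_comm' g2 e c c' hc hc'⟩
  have h1 := rep_lift (fun a : Raw X => cls (a.add (rep (cls c'))))
    (add_move g1 g2 e _ (rep_good _)) hc
  have h2 := rep_lift (fun a : Raw X => cls (a.add c)) (add_move g1 g2 e _ hc) hc'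
  exact h1.trans ((add_comm' g2 e _ _ hc (rep_good _)).trans
    (h2.trans (add_comm' g2 e _ _ hc' hc)))

end

end Pool.Agent.MP_826def_gt.BA
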