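import Pool.Agent.MP_826def_gt.MU.Core

/-!
The class of complex conjugation is the negative of the unit.
-/

namespace Pool.Agent.MP_826def_gt.BA

open Set Topology MU

noncomputable section

/-- The section `f (x) + i y` over the set `O`. -/
abbrev cc (O : Set (Unit × ℂ)) (f : ℝ → ℝ) : Raw Unit :=
  ⟨FD.C, FD.C, O, fun _ => ContinuousLinearMap.id ℂ ℂ,
    fun z => ((f (Complex.re z.2) : ℝ) : ℂ) + ((Complex.im z.2 : ℝ) : ℂ) * Complex.I⟩

theorem cc_zero (a b : ℝ) : (a : ℂ) + (b : ℂ) * Complex.I = 0 ↔ a = 0 ∧ b = 0 := by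
  simp [Complex.ext_iff]

theorem eps_hty (g1 : S_good1) {O : Set (Unit × ℂ)} (hO : IsOpen O) (G : ℝ → ℝ → ℝ)
    (hG : Continuous fun q : ℝ × ℝ => G q.1 q.2) (K : Set ℝ) (hK : IsCompact K)
    (hKO : ∀ x ∈ K, ((), (x : ℂ)) ∈ O)
    (hz : ∀ t ∈ Icc (0 : ℝ) 1, ∀ x : ℝ, ((), (x : ℂ)) ∈ O → G t x = 0 → x ∈ K)
    (f₀ f₁ : ℝ → ℝ) (h₀ : ∀ x, G 0 x = f₀ x) (h₁ : ∀ x, G 1 x = f₁ x) :
    (cc O f₀).Good ∧ (cc O f₁).Good ∧ cls (cc O f₀) = cls (cc O f₁) := by
  obtain rfl : G 0 = f₀ := funext h₀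
  obtain rfl : G 1 = f₁ := funext h₁
  let C : Raw (Unit × unitInterval) :=
    ⟨FD.C, FD.C, {z | (z.1.1, z.2) ∈ O}, fun _ => ContinuousLinearMap.id ℂ ℂ,
      fun z => ((G z.1.2 (Complex.re z.2) : ℝ) : ℂ) + ((Complex.im z.2 : ℝ) : ℂ) * Complex.I⟩
  have hs : Continuous fun z : (Unit × unitInterval) × ℂ =>
      ((G z.1.2 (Complex.re z.2) : ℝ) : ℂ) + ((Complex.im z.2 : ℝ) : ℂ) * Complex.I := by
    have : Continuous fun z : (Unit × unitInterval) × ℂ => G z.1.2 (Complex.re z.2) :=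
      hG.comp (f := fun z : (Unit × unitInterval) × ℂ => ((z.1.2 : ℝ), Complex.re z.2))
        (by fun_prop)
    fun_prop
  have hC : C.Good := by
    refine ⟨hO.preimage (f := fun z : (Unit × unitInterval) × ℂ => (z.1.1, z.2)) (by fun_prop),
      continuousOn_const, hs.continuousOn, fun _ _ => rfl, fun _ _ => rfl, ?_⟩
    have hc : IsCompact ((univ : Set (Unit × unitInterval)) ×ˢ ((fun x : ℝ => (x : ℂ)) '' K)) :=
      isCompact_univ.prod (hK.image Complex.continuous_ofReal)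
    have := hc.inter_right (isClosed_eq hs (continuous_const (y := (0 : ℂ))))
    convert this using 1
    ext ⟨⟨u, t⟩, z⟩
    constructor
    · rintro ⟨h1, h2⟩
      obtain ⟨h3, h4⟩ := (cc_zero _ _).1 h2
      have hz' : ((Complex.re z : ℝ) : ℂ) = z := Complex.ext rfl (by simpa using h4.symm)
      refine ⟨⟨trivial, _, hz t t.2 _ ?_ h3, hz'⟩, h2⟩
      rw [hz']
      exact h1
    · rintro ⟨⟨-, x, hx, rfl⟩, h2⟩
      exact ⟨hKO x hx, h2⟩
  have p0 : IsProperMap fun x : Unit => (x, (0 : unitInterval)) :=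
    Continuous.isProperMap (by fun_prop)
  have p1 : IsProperMap fun x : Unit => (x, (1 : unitInterval)) :=
    Continuous.isProperMap (by fun_prop)
  exact ⟨g1.pull hC p0, g1.pull hC p1, cls_move (g1.pull hC p0) (g1.pull hC p1) (Move.htpy C hC)⟩

theorem eps_germ {O : Set (Unit × ℂ)} {f : ℝ → ℝ} (h1 : (cc univ f).Good) (h2 : (cc O f).Good)
    (hz : ∀ x : ℝ, f x = 0 → ((), (x : ℂ)) ∈ O) : cls (cc O f) = cls (cc univ f) := by
  refine (cls_move h1 h2 (Move.germ (cc univ f) O _ _ (subset_univ _) (fun _ _ => rfl)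
    (fun _ _ => rfl) ?_)).symm
  rintro ⟨u, z⟩ ⟨-, h⟩
  obtain ⟨h3, h4⟩ := (cc_zero _ _).1 h
  have hz' : ((Complex.re z : ℝ) : ℂ) = z := Complex.ext rfl (by simpa using h4.symm)
  have := hz _ h3
  rw [hz'] at this
  exact this

theorem eps_one (g1 : S_good1) (e : S_eqv) (h : (cc univ fun x => x).Good) :
    cls (cc univ fun x => x) = cls (Raw.one Unit) := by
  have h1 := g1.one Unit
  have h2 := g1.stab FD.C h1
  rw [cls_move h1 h2 (Move.stab _ FD.C)]
  refine e (cc univ fun x => x) ((Raw.one Unit).stab FD.C)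
    (ContinuousLinearEquiv.uniqueProd ℂ ℂ Unit) univ (fun _ => ContinuousLinearMap.inr ℂ Unit ℂ)
    (fun _ => ContinuousLinearMap.snd ℂ Unit ℂ) h h2 isOpen_univ (subset_univ _)
    (fun _ _ => trivial) continuousOn_const continuousOn_const fun z _ =>
      ⟨trivial, trivial, rfl, ?_, ?_⟩
  · exact ContinuousLinearMap.ext fun w => Prod.ext rfl rfl
  · exact Prod.ext rfl (Complex.re_add_im _)

theorem eps_conj (g1 : S_good1) (e : S_eqv) (h : (cc univ fun x => -x).Good) :
    cls (cc univ fun x => -x) = cls Raw.eps := by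
  refine e (cc univ fun x => -x) Raw.eps (ContinuousLinearEquiv.refl ℂ ℂ) univ
    (fun _ => -ContinuousLinearMap.id ℂ ℂ) (fun _ => -ContinuousLinearMap.id ℂ ℂ) h g1.eps
    isOpen_univ (subset_univ _) (fun _ _ => trivial) continuousOn_const continuousOn_const
    fun z _ => ⟨trivial, trivial, ?_, ?_, ?_⟩
  · exact ContinuousLinearMap.ext fun w => neg_neg w
  · exact ContinuousLinearMap.ext fun w => neg_neg w
  · show -((((-(Complex.re z.2) : ℝ)) : ℂ) + ((Complex.im z.2 : ℝ) : ℂ) * Complex.I) =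
      (starRingEnd ℂ) z.2
    apply Complex.ext <;> simp

theorem eps (g1 : S_good1) (_g2 : S_good2) (e : S_eqv) (em : S_empty) (s : S_sum) : S_eps := by
  let P : Set (Unit × ℂ) := {z | 0 < z.2.re}
  let N : Set (Unit × ℂ) := {z | z.2.re < 0}
  have hP : IsOpen P := isOpen_lt continuous_const (by fun_prop)
  have hN : IsOpen N := isOpen_lt (by fun_prop) continuous_const
  let f : ℝ → ℝ := fun x => x ^ 2 - 1
  obtain ⟨a0, a1, a2⟩ := eps_hty g1 isOpen_univ (fun t x => x ^ 2 - 1 + 2 * t) (by fun_prop)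
    (Icc (-1) 1) isCompact_Icc (fun _ _ => trivial)
    (fun t ht x _ hx => abs_le.1 (abs_le_one_iff_mul_self_le_one.2 (by nlinarith [ht.1])))
    f (fun x => x ^ 2 + 1) (fun x => by simp [f]) (fun x => by ring)
  have a3 : cls (cc univ fun x => x ^ 2 + 1) = zero0 Unit := by
    refine em _ a1 (eq_empty_of_forall_notMem ?_)
    rintro z ⟨-, h⟩
    have := ((cc_zero _ _).1 h).1
    nlinarith [sq_nonneg (Complex.re z.2)]
  have a4 : cls (cc univ f) = add0 (cls (cc (univ ∩ N) f)) (cls (cc (univ ∩ P) f)) := by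
    refine s.1 (cc univ f) N P a0 hN hP ?_ ?_
    · exact disjoint_left.2 fun z h1 h2 => lt_asymm (show z.2.re < 0 from h1) h2
    · rintro z ⟨-, h⟩
      have h1 : (Complex.re z.2) ^ 2 - 1 = 0 := ((cc_zero _ _).1 h).1
      rcases lt_trichotomy (Complex.re z.2) 0 with h2 | h2 | h2
      · exact Or.inl h2
      · rw [h2] at h1
        norm_num at h1
      · exact Or.inr h2
  obtain ⟨-, b1, b2⟩ := eps_hty g1 (isOpen_univ.inter hP) (fun t x => (x - 1) * (1 + (1 - t) * x))
    (by fun_prop) {1} isCompact_singleton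
    (by
      rintro x rfl
      exact ⟨trivial, show (0 : ℝ) < 1 from one_pos⟩)
    (fun t ht x hx h => by
      have h1 : (0 : ℝ) < x := hx.2
      have h2 : 0 ≤ (1 - t) * x := mul_nonneg (sub_nonneg.2 ht.2) h1.le
      rcases mul_eq_zero.1 h with h | h
      · exact sub_eq_zero.1 h
      · linarith)
    f (fun x => x - 1) (fun x => by simp only [f]; ring) (fun x => by ring)
  obtain ⟨b3, b4, b5⟩ := eps_hty g1 isOpen_univ (fun t x => x - 1 + t) (by fun_prop)
    (Icc 0 1) isCompact_Icc (fun _ _ => trivial)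
    (fun t ht x _ hx => ⟨by linarith [ht.2], by linarith [ht.1]⟩)
    (fun x => x - 1) (fun x => x) (fun x => by ring) (fun x => by ring)
  have b6 := eps_germ b3 b1 fun x hx => ⟨trivial, show (0 : ℝ) < x by linarith⟩
  obtain ⟨-, c1, c2⟩ := eps_hty g1 (isOpen_univ.inter hN) (fun t x => (x + 1) * ((1 - t) * x - 1))
    (by fun_prop) {-1} isCompact_singleton
    (by
      rintro x rfl
      exact ⟨trivial, show (-1 : ℝ) < 0 by norm_num⟩)
    (fun t ht x hx h => by
      have h1 : x < (0 : ℝ) := hx.2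
      have h2 : (1 - t) * x ≤ 0 := mul_nonpos_of_nonneg_of_nonpos (sub_nonneg.2 ht.2) h1.le
      rcases mul_eq_zero.1 h with h | h
      · exact eq_neg_of_add_eq_zero_left h
      · linarith)
    f (fun x => -x - 1) (fun x => by simp only [f]; ring) (fun x => by ring)
  obtain ⟨c3, c4, c5⟩ := eps_hty g1 isOpen_univ (fun t x => -x - 1 + t) (by fun_prop)
    (Icc (-1) 0) isCompact_Icc (fun _ _ => trivial)
    (fun t ht x _ hx => ⟨by linarith [ht.1], by linarith [ht.2]⟩)
    (fun x => -x - 1) (fun x => -x) (fun x => by ring) (fun x => by ring)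
  have c6 := eps_germ c3 c1 fun x hx => ⟨trivial, show x < (0 : ℝ) by linarith⟩
  rw [b2, b6, b5, eps_one g1 e b4, c2, c6, c5, eps_conj g1 e c4, a2, a3] at a4
  exact a4.symm

end

end Pool.Agent.MP_826def_gt.BA
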