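import Pool.Agent.MP_826def_gt.MU.Core

/-!
Isomorphic germs of cocycles have the same class; a cocycle without zeros has class zero.
-/

namespace Pool.Agent.MP_826def_gt.BA

open Set Topology MU

noncomputable section

/-- Restriction to a smaller open set that contains the zero set. -/
theorem eqv_germ {X : Type} [TopologicalSpace X] (c : Raw X) (G : Set (X × c.V))
    (p : X × c.V → c.W →L[ℂ] c.W) (s : X × c.V → c.W) (hc : c.Good) (hG : IsOpen G)
    (hO : G ⊆ c.O) (hp : EqOn p c.p G) (hs : EqOn s c.s G) (hZ : c.Z ⊆ G) :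
    (⟨c.V, c.W, G, p, s⟩ : Raw X).Good ∧ cls c = cls (⟨c.V, c.W, G, p, s⟩ : Raw X) := by
  have hg : (⟨c.V, c.W, G, p, s⟩ : Raw X).Good := by
    refine ⟨hG, (hc.cp.mono hO).congr hp, (hc.cs.mono hO).congr hs, fun z hz => ?_,
      fun z hz => ?_, ?_⟩
    · show p z ∘L p z = p z
      rw [hp hz]
      exact hc.idem z (hO hz)
    · show p z (s z) = s z
      rw [hp hz, hs hz]
      exact hc.sec z (hO hz)
    · have : (⟨c.V, c.W, G, p, s⟩ : Raw X).Z = c.Z := by
        ext z
        constructor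
        · rintro ⟨h1, h2⟩
          exact ⟨hO h1, (hs h1).symm.trans h2⟩
        · intro h
          exact ⟨hZ h, (hs (hZ h)).trans h.2⟩
      rw [this]
      exact hc.cpt
  exact ⟨hg, cls_move hc hg (Move.germ c G p s hO hp hs hZ)⟩

/-- The first coefficient of the rotation. -/
def eqvA (t : unitInterval) : ℂ := Complex.cos (Real.pi / 2 * ((t : ℝ) : ℂ))

/-- The second coefficient of the rotation. -/
def eqvB (t : unitInterval) : ℂ := Complex.sin (Real.pi / 2 * ((t : ℝ) : ℂ))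

theorem eqvA_cont : Continuous eqvA := by
  unfold eqvA
  fun_prop

theorem eqvB_cont : Continuous eqvB := by
  unfold eqvB
  fun_prop

theorem eqvAB (t : unitInterval) : eqvA t * eqvA t + eqvB t * eqvB t = 1 := by
  have := Complex.cos_sq_add_sin_sq (Real.pi / 2 * ((t : ℝ) : ℂ))
  unfold eqvA eqvB
  linear_combination this

theorem eqvA_zero : eqvA 0 = 1 := by simp [eqvA]
theorem eqvB_zero : eqvB 0 = 0 := by simp [eqvB]
theorem eqvA_one : eqvA 1 = 0 := by simp [eqvA]
theorem eqvB_one : eqvB 1 = 1 := by simp [eqvB]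

/-- The rotating embedding. -/
def eqvI {W W' : FD} (a b : ℂ) (p : W →L[ℂ] W) (u : W →L[ℂ] W') : W →L[ℂ] W.prod W' :=
  a • (ContinuousLinearMap.inl ℂ W W' ∘L p) + b • (ContinuousLinearMap.inr ℂ W W' ∘L (u ∘L p))

/-- The rotating retraction. -/
def eqvR {W W' : FD} (a b : ℂ) (p : W →L[ℂ] W) (v : W' →L[ℂ] W) : W.prod W' →L[ℂ] W :=
  a • (p ∘L ContinuousLinearMap.fst ℂ W W') + b • ((p ∘L v) ∘L ContinuousLinearMap.snd ℂ W W')

theorem eqvI_apply {W W' : FD} (a b : ℂ) (p : W →L[ℂ] W) (u : W →L[ℂ] W') (w : W) :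
    eqvI a b p u w = (a • p w, b • u (p w)) := by
  simp [eqvI]

theorem eqvR_apply {W W' : FD} (a b : ℂ) (p : W →L[ℂ] W) (v : W' →L[ℂ] W) (w : W) (w' : W') :
    eqvR a b p v (w, w') = a • p w + b • p (v w') := by
  simp [eqvR]

theorem eqvRI {W W' : FD} {a b : ℂ} (hab : a * a + b * b = 1) {p : W →L[ℂ] W} {u : W →L[ℂ] W'}
    {v : W' →L[ℂ] W} (hp : p ∘L p = p) (hvu : v ∘L u = p) (w : W) :
    eqvR a b p v (eqvI a b p u w) = p w := by
  have h1 : ∀ w, p (p w) = p w := fun w => congrArg (fun q : W →L[ℂ] W => q w) hp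
  have h2 : ∀ w, v (u w) = p w := fun w => congrArg (fun q : W →L[ℂ] W => q w) hvu
  rw [eqvI_apply, eqvR_apply]
  simp only [map_smul, h1, h2, smul_smul]
  rw [← add_smul, hab, one_smul]

theorem eqvIp {W W' : FD} (a b : ℂ) {p : W →L[ℂ] W} (u : W →L[ℂ] W') (hp : p ∘L p = p) (w : W) :
    eqvI a b p u (p w) = eqvI a b p u w := by
  have h1 : ∀ w, p (p w) = p w := fun w => congrArg (fun q : W →L[ℂ] W => q w) hp
  rw [eqvI_apply, eqvI_apply, h1]

/-- The isomorphism lemma on one open set. -/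
theorem eqv_iso (g1 : S_good1) {X : Type} [TopologicalSpace X] (V W W' : FD) (G : Set (X × V))
    (p : X × V → W →L[ℂ] W) (s : X × V → W) (p' : X × V → W' →L[ℂ] W') (s' : X × V → W')
    (u : X × V → W →L[ℂ] W') (v : X × V → W' →L[ℂ] W)
    (ha : (⟨V, W, G, p, s⟩ : Raw X).Good) (hb : (⟨V, W', G, p', s'⟩ : Raw X).Good)
    (hu : ContinuousOn u G) (hv : ContinuousOn v G)
    (H : ∀ z ∈ G, v z ∘L u z = p z ∧ u z ∘L v z = p' z ∧ u z (s z) = s' z) :
    cls (⟨V, W, G, p, s⟩ : Raw X) = cls (⟨V, W', G, p', s'⟩ : Raw X) := by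
  have hG : IsOpen G := ha.op
  have hp : ContinuousOn p G := ha.cp
  have hs : ContinuousOn s G := ha.cs
  have hid : ∀ z ∈ G, p z ∘L p z = p z := ha.idem
  have hsec : ∀ z ∈ G, p z (s z) = s z := ha.sec
  have hid' : ∀ z ∈ G, p' z ∘L p' z = p' z := hb.idem
  let π : (X × unitInterval) × V → X × V := fun z => (z.1.1, z.2)
  have hπ : Continuous π := by fun_prop
  let ι : (X × unitInterval) × V → W →L[ℂ] W.prod W' := fun z =>
    eqvI (eqvA z.1.2) (eqvB z.1.2) (p (π z)) (u (π z))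
  let ρ : (X × unitInterval) × V → W.prod W' →L[ℂ] W := fun z =>
    eqvR (eqvA z.1.2) (eqvB z.1.2) (p (π z)) (v (π z))
  let C : Raw (X × unitInterval) := ⟨V, W.prod W', π ⁻¹' G, fun z => ι z ∘L ρ z,
    fun z => ι z (s (π z))⟩
  have hA : Continuous fun z : (X × unitInterval) × V => eqvA z.1.2 :=
    eqvA_cont.comp (by fun_prop)
  have hB : Continuous fun z : (X × unitInterval) × V => eqvB z.1.2 :=
    eqvB_cont.comp (by fun_prop)
  have cp : ContinuousOn (fun z => p (π z)) (π ⁻¹' G) := hp.comp hπ.continuousOn fun _ h => h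
  have cs : ContinuousOn (fun z => s (π z)) (π ⁻¹' G) := hs.comp hπ.continuousOn fun _ h => h
  have cu : ContinuousOn (fun z => u (π z)) (π ⁻¹' G) := hu.comp hπ.continuousOn fun _ h => h
  have cv : ContinuousOn (fun z => v (π z)) (π ⁻¹' G) := hv.comp hπ.continuousOn fun _ h => h
  have cι : ContinuousOn ι (π ⁻¹' G) :=
    (hA.continuousOn.smul (continuousOn_const.clm_comp cp)).add
      (hB.continuousOn.smul (continuousOn_const.clm_comp (cu.clm_comp cp)))
  have cρ : ContinuousOn ρ (π ⁻¹' G) :=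
    (hA.continuousOn.smul (cp.clm_comp continuousOn_const)).add
      (hB.continuousOn.smul ((cp.clm_comp cv).clm_comp continuousOn_const))
  have hρι : ∀ z ∈ π ⁻¹' G, ∀ w, ρ z (ι z w) = p (π z) w := fun z hz w =>
    eqvRI (eqvAB z.1.2) (hid _ hz) (H _ hz).1 w
  have hιp : ∀ z ∈ π ⁻¹' G, ∀ w, ι z (p (π z) w) = ι z w := fun z hz w =>
    eqvIp _ _ _ (hid _ hz) w
  have hC : C.Good := by
    refine ⟨hG.preimage hπ, cι.clm_comp cρ, cι.clm_apply cs, fun z hz => ?_, fun z hz => ?_, ?_⟩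
    · refine ContinuousLinearMap.ext fun w => ?_
      show ι z (ρ z (ι z (ρ z w))) = ι z (ρ z w)
      rw [hρι z hz, hιp z hz]
    · show ι z (ρ z (ι z (s (π z)))) = ι z (s (π z))
      rw [hρι z hz, hιp z hz]
    · have hK : IsCompact ((fun y : (X × V) × unitInterval => ((y.1.1, y.2), y.1.2)) ''
          ((⟨V, W, G, p, s⟩ : Raw X).Z ×ˢ univ)) :=
        (ha.cpt.prod isCompact_univ).image (by fun_prop)
      have : C.Z = (fun y : (X × V) × unitInterval => ((y.1.1, y.2), y.1.2)) ''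
          ((⟨V, W, G, p, s⟩ : Raw X).Z ×ˢ univ) := by
        ext z
        constructor
        · rintro ⟨h1, h2⟩
          refine ⟨(π z, z.1.2), ⟨⟨h1, ?_⟩, mem_univ _⟩, rfl⟩
          have h2' : ι z (s (π z)) = 0 := h2
          have h3 := hρι z h1 (s (π z))
          rw [h2', map_zero, hsec _ h1] at h3
          exact h3.symm
        · rintro ⟨y, ⟨⟨h1, h2⟩, -⟩, rfl⟩
          refine ⟨h1, ?_⟩
          have h2' : s y.1 = 0 := h2
          show ι _ (s y.1) = 0
          rw [h2', map_zero]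
      rw [this]
      exact hK
  have pr : ∀ t : unitInterval, IsProperMap fun x : X => (x, t) := fun t =>
    (IsClosedEmbedding.of_isEmbedding_isClosedMap (isEmbedding_prodMkLeft t)
      (isClosedMap_prodMk_right t)).isProperMap
  have h0 := g1.pull hC (pr 0)
  have h1 := g1.pull hC (pr 1)
  have e01 := cls_move h0 h1 (Move.htpy C hC)
  have r0 : ContinuousLinearMap.fst ℂ W W' ∘L ContinuousLinearMap.inl ℂ W W' =
      ContinuousLinearMap.id ℂ W := ContinuousLinearMap.fst_comp_inl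
  have r1 : ContinuousLinearMap.snd ℂ W W' ∘L ContinuousLinearMap.inr ℂ W W' =
      ContinuousLinearMap.id ℂ W' := ContinuousLinearMap.snd_comp_inr
  have ea := cls_move ha (g1.wemb (W.prod W') _ _ r0 ha) (Move.wemb _ (W.prod W') _ _ r0)
  have eb := cls_move hb (g1.wemb (W.prod W') _ _ r1 hb) (Move.wemb _ (W.prod W') _ _ r1)
  have f0 := (eqv_germ (C.pull fun x => (x, 0)) G
    (fun z => ContinuousLinearMap.inl ℂ W W' ∘L p z ∘L ContinuousLinearMap.fst ℂ W W')
    (fun z => ContinuousLinearMap.inl ℂ W W' (s z)) h0 hG (fun _ h => h) (fun z hz => by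
      refine ContinuousLinearMap.ext fun w => ?_
      obtain ⟨w, w'⟩ := w
      have h1 : ∀ w, p z (p z w) = p z w := fun w =>
        congrArg (fun q : W →L[ℂ] W => q w) (hid z hz)
      show (p z w, (0 : W')) = eqvI (eqvA 0) (eqvB 0) (p z) (u z)
        (eqvR (eqvA 0) (eqvB 0) (p z) (v z) (w, w'))
      rw [eqvI_apply, eqvR_apply, eqvA_zero, eqvB_zero]
      simp [h1]) (fun z hz => by
      show (s z, (0 : W')) = eqvI (eqvA 0) (eqvB 0) (p z) (u z) (s z)
      rw [eqvI_apply, eqvA_zero, eqvB_zero, hsec z hz]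
      simp) (fun _ h => h.1)).2
  have f1 := (eqv_germ (C.pull fun x => (x, 1)) G
    (fun z => ContinuousLinearMap.inr ℂ W W' ∘L p' z ∘L ContinuousLinearMap.snd ℂ W W')
    (fun z => ContinuousLinearMap.inr ℂ W W' (s' z)) h1 hG (fun _ h => h) (fun z hz => by
      refine ContinuousLinearMap.ext fun w => ?_
      obtain ⟨w, w'⟩ := w
      have h1 : ∀ w, p z (p z w) = p z w := fun w =>
        congrArg (fun q : W →L[ℂ] W => q w) (hid z hz)
      have h2 : ∀ w, v z (u z w) = p z w := fun w =>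
        congrArg (fun q : W →L[ℂ] W => q w) (H z hz).1
      have h3 : ∀ w, u z (v z w) = p' z w := fun w =>
        congrArg (fun q : W' →L[ℂ] W' => q w) (H z hz).2.1
      have h4 : ∀ w, p' z (p' z w) = p' z w := fun w =>
        congrArg (fun q : W' →L[ℂ] W' => q w) (hid' z hz)
      show ((0 : W), p' z w') = eqvI (eqvA 1) (eqvB 1) (p z) (u z)
        (eqvR (eqvA 1) (eqvB 1) (p z) (v z) (w, w'))
      rw [eqvI_apply, eqvR_apply, eqvA_one, eqvB_one]
      simp only [zero_smul, one_smul, zero_add, h1]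
      rw [← h2, h3, h3, h4]) (fun z hz => by
      show ((0 : W), s' z) = eqvI (eqvA 1) (eqvB 1) (p z) (u z) (s z)
      rw [eqvI_apply, eqvA_one, eqvB_one, hsec z hz, (H z hz).2.2]
      simp) (fun _ h => h.1)).2
  exact ea.trans (f0.symm.trans (e01.trans (f1.trans eb.symm)))

theorem eqv (g1 : S_good1) : S_eqv := by
  intro X _ c c' e G u v hc hc' hG hZ' hZ hu hv H
  have h1 := g1.viso c'.V e hc
  have e1 := cls_move hc h1 (Move.viso c c'.V e)
  have a := eqv_germ (c.viso c'.V e) G (c.viso c'.V e).p (c.viso c'.V e).s h1 hG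
    (fun z hz => (H z hz).2.1) (fun _ _ => rfl) (fun _ _ => rfl) (fun z hz => hZ z hz)
  have b := eqv_germ c' G c'.p c'.s hc' hG (fun z hz => (H z hz).1) (fun _ _ => rfl)
    (fun _ _ => rfl) hZ'
  exact e1.trans (a.2.trans ((eqv_iso g1 c'.V c.W c'.W G _ _ _ _ u v a.1 b.1 hu hv
    fun z hz => (H z hz).2.2).trans b.2.symm))

theorem empty (g1 : S_good1) : S_empty := by
  intro X _ c hc hZ
  have h1 := g1.stab c.V (Raw.good_empty (X := X))
  have e1 := cls_move Raw.good_empty h1 (Move.stab (Raw.empty X) c.V)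
  refine (eqv g1 c ((Raw.empty X).stab c.V) (ContinuousLinearEquiv.uniqueProd ℂ c.V Unit) ∅ 0 0 hc
    h1 isOpen_empty (fun z hz => hz.1) (fun z hz => ?_) (continuousOn_empty _)
    (continuousOn_empty _) fun _ h => h.elim).trans e1.symm
  rw [hZ] at hz
  exact hz

end

end Pool.Agent.MP_826def_gt.BA
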