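import Pool.Agent.MP_826def_gt.MU.Core

/-! The operations on cocycles preserve cocycles, second part. -/

namespace Pool.Agent.MP_826def_gt.BA

open Set Topology Pool.Agent.MP_826def_gt.MU

theorem g2_cont_prodMap {T : Type} [TopologicalSpace T] {W W' : FD} {S : Set T}
    {p : T → W →L[ℂ] W} {q : T → W' →L[ℂ] W'} (hp : ContinuousOn p S) (hq : ContinuousOn q S) :
    ContinuousOn (fun z => ((p z).prodMap (q z) : W.prod W' →L[ℂ] W.prod W')) S :=
  (ContinuousLinearMap.prodMapL ℂ W W W' W').continuous.comp_continuousOn (hp.prodMk hq)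

theorem g2_idem_prodMap {W W' : FD} {p : W →L[ℂ] W} {q : W' →L[ℂ] W'} (hp : p ∘L p = p)
    (hq : q ∘L q = q) : (p.prodMap q) ∘L (p.prodMap q) = p.prodMap q :=
  ContinuousLinearMap.ext fun w =>
    Prod.ext (congrArg (fun r : W →L[ℂ] W => r w.1) hp) (congrArg (fun r : W' →L[ℂ] W' => r w.2) hq)

theorem g2_twist {X X' : Type} [TopologicalSpace X] [TopologicalSpace X'] {c : Raw X}
    {g : C(X', X)} {ξ : Bun X'} {σ : C(X', ξ.W)} (hc : c.Good) (ht : Tw g ξ σ) :
    (c.twist g ξ σ).Good := by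
  have hG : Continuous fun z : X' × c.V => (g z.1, z.2) := by fun_prop
  refine ⟨hc.op.preimage hG, ?_, ?_, fun z hz => g2_idem_prodMap (hc.idem _ hz) (ξ.idem _),
    fun z hz => Prod.ext (hc.sec _ hz) (ht.1 _), ?_⟩
  · exact g2_cont_prodMap (hc.cp.comp hG.continuousOn fun _ h => h)
      (ξ.p.continuous.comp continuous_fst).continuousOn
  · exact (hc.cs.comp hG.continuousOn fun _ h => h).prodMk
      (σ.continuous.comp continuous_fst).continuousOn
  · have h1 := (ht.2.prodMap (isProperMap_id (X := c.V))).isCompact_preimage hc.cpt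
    have h2 : Continuous fun z : {x // σ x = 0} × c.V => (z.1.1, z.2) := by fun_prop
    refine (congrArg IsCompact ?_).mp (h1.image h2)
    ext z
    constructor
    · rintro ⟨w, hw, rfl⟩
      exact ⟨hw.1, Prod.ext hw.2 w.1.2⟩
    · rintro ⟨h3, h4⟩
      exact ⟨(⟨z.1, congrArg Prod.snd h4⟩, z.2), ⟨h3, congrArg Prod.fst h4⟩, rfl⟩

theorem g2_push {X U : Type} [TopologicalSpace X] [TopologicalSpace U] {c : Raw U} {j : U → X}
    (hc : c.Good) (hj : IsOpenEmbedding j) : (c.push j).Good := by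
  have hJ : IsOpenEmbedding (Prod.map j (id : c.V → c.V)) := hj.prodMap IsOpenEmbedding.id
  have e1 : ∀ w, Function.extend (Prod.map j id) c.p 0 (Prod.map j id w) = c.p w :=
    fun w => hJ.injective.extend_apply _ _ w
  have e2 : ∀ w, Function.extend (Prod.map j id) c.s 0 (Prod.map j id w) = c.s w :=
    fun w => hJ.injective.extend_apply _ _ w
  refine ⟨hJ.isOpenMap _ hc.op, ?_, ?_, ?_, ?_, ?_⟩
  · exact hJ.isInducing.continuousOn_image_iff.2 (hc.cp.congr fun w _ => e1 w)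
  · exact hJ.isInducing.continuousOn_image_iff.2 (hc.cs.congr fun w _ => e2 w)
  · rintro _ ⟨w, hw, rfl⟩
    show Function.extend (Prod.map j id) c.p 0 (Prod.map j id w) ∘L
      Function.extend (Prod.map j id) c.p 0 (Prod.map j id w) =
      Function.extend (Prod.map j id) c.p 0 (Prod.map j id w)
    rw [e1]
    exact hc.idem w hw
  · rintro _ ⟨w, hw, rfl⟩
    show Function.extend (Prod.map j id) c.p 0 (Prod.map j id w)
      (Function.extend (Prod.map j id) c.s 0 (Prod.map j id w)) =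
      Function.extend (Prod.map j id) c.s 0 (Prod.map j id w)
    rw [e1, e2]
    exact hc.sec w hw
  · refine (congrArg IsCompact ?_).mp (hc.cpt.image hJ.continuous)
    ext z
    constructor
    · rintro ⟨w, hw, rfl⟩
      exact ⟨⟨w, hw.1, rfl⟩, (e2 w).trans hw.2⟩
    · rintro ⟨⟨w, hw, rfl⟩, h4⟩
      exact ⟨w, ⟨hw, (e2 w).symm.trans h4⟩, rfl⟩

theorem g2_prod {X K Y : Type} [TopologicalSpace X] [TopologicalSpace K] [TopologicalSpace Y]
    {a : Raw K} {c : Raw Y} {f : C(X, K)} {g : C(X, Y)} (ha : a.Good) (hc : c.Good)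
    (hp : Pr f g) : (a.prod c f g).Good := by
  have hF : Continuous fun z : X × (a.V.prod c.V) => (f z.1, z.2.1) := by fun_prop
  have hG : Continuous fun z : X × (a.V.prod c.V) => (g z.1, z.2.2) := by fun_prop
  refine ⟨(ha.op.preimage hF).inter (hc.op.preimage hG), ?_, ?_,
    fun z hz => g2_idem_prodMap (ha.idem _ hz.1) (hc.idem _ hz.2),
    fun z hz => Prod.ext (ha.sec _ hz.1) (hc.sec _ hz.2), ?_⟩
  · exact g2_cont_prodMap (ha.cp.comp hF.continuousOn fun _ h => h.1)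
      (hc.cp.comp hG.continuousOn fun _ h => h.2)
  · exact (ha.cs.comp hF.continuousOn fun _ h => h.1).prodMk
      (hc.cs.comp hG.continuousOn fun _ h => h.2)
  · have h2 : Continuous fun z : (K × a.V) × (Y × c.V) =>
        (((z.1.1, z.2.1), (z.1.2, z.2.2)) : (K × Y) × (a.V.prod c.V)) := by fun_prop
    have h1 := (IsProperMap.prodMap hp (isProperMap_id (X := a.V.prod c.V))).isCompact_preimage
      ((ha.cpt.prod hc.cpt).image h2)
    refine (congrArg IsCompact ?_).mp h1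
    ext z
    constructor
    · rintro ⟨⟨⟨k, v⟩, ⟨y, w⟩⟩, ⟨h3, h4⟩, h5⟩
      obtain ⟨x, v', w'⟩ := z
      simp only [Prod.map, id, Prod.mk.injEq] at h5
      obtain ⟨⟨rfl, rfl⟩, rfl, rfl⟩ := h5
      exact ⟨⟨h3.1, h4.1⟩, Prod.ext h3.2 h4.2⟩
    · rintro ⟨h3, h4⟩
      exact ⟨((f z.1, z.2.1), (g z.1, z.2.2)),
        ⟨⟨h3.1, congrArg Prod.fst h4⟩, h3.2, congrArg Prod.snd h4⟩, rfl⟩

theorem g2_add {X : Type} [TopologicalSpace X] {c c' : Raw X} (hc : c.Good) (hc' : c'.Good) :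
    (c.add c').Good := by
  have hF : Continuous fun z : X × ((c.V.prod c'.V).prod FD.C) => (z.1, z.2.1.1) := by fun_prop
  have hG : Continuous fun z : X × ((c.V.prod c'.V).prod FD.C) => (z.1, z.2.1.2) := by fun_prop
  have hr : Continuous fun z : X × ((c.V.prod c'.V).prod FD.C) => Complex.re z.2.2 :=
    Complex.continuous_re.comp (continuous_snd.comp continuous_snd)
  have o1 : IsOpen {z : X × ((c.V.prod c'.V).prod FD.C) |
      0 < Complex.re z.2.2 ∧ (z.1, z.2.1.1) ∈ c.O} :=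
    (isOpen_lt continuous_const hr).inter (hc.op.preimage hF)
  have o2 : IsOpen {z : X × ((c.V.prod c'.V).prod FD.C) |
      Complex.re z.2.2 < 0 ∧ (z.1, z.2.1.2) ∈ c'.O} :=
    (isOpen_lt hr continuous_const).inter (hc'.op.preimage hG)
  refine ⟨o1.union o2, ?_, ?_, ?_, ?_, ?_⟩
  · refine g2_cont_prodMap (W' := FD.C) ?_ continuousOn_const
    refine ContinuousOn.union_of_isOpen ?_ ?_ o1 o2
    · refine ContinuousOn.congr (f := fun z : X × ((c.V.prod c'.V).prod FD.C) =>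
        ((c.p (z.1, z.2.1.1)).prodMap (ContinuousLinearMap.id ℂ c'.V)).prodMap
          (0 : c'.W.prod c.V →L[ℂ] c'.W.prod c.V)) ?_ fun z hz => if_pos hz.1
      exact g2_cont_prodMap (W := c.W.prod c'.V) (g2_cont_prodMap
        (hc.cp.comp hF.continuousOn fun _ h => h.2) continuousOn_const) continuousOn_const
    · refine ContinuousOn.congr (f := fun z : X × ((c.V.prod c'.V).prod FD.C) =>
        (0 : c.W.prod c'.V →L[ℂ] c.W.prod c'.V).prodMap
          ((c'.p (z.1, z.2.1.2)).prodMap (ContinuousLinearMap.id ℂ c.V))) ?_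
        fun z hz => if_neg (not_lt.2 hz.1.le)
      exact g2_cont_prodMap (W' := c'.W.prod c.V) continuousOn_const (g2_cont_prodMap
        (hc'.cp.comp hG.continuousOn fun _ h => h.2) continuousOn_const)
  · refine ContinuousOn.union_of_isOpen ?_ ?_ o1 o2
    · refine ContinuousOn.congr (f := fun z : X × ((c.V.prod c'.V).prod FD.C) =>
        ((((c.s (z.1, z.2.1.1), z.2.1.2), 0), z.2.2 - 1) : (c.add c').W)) ?_
        fun z hz => if_pos hz.1
      refine ContinuousOn.prodMk (ContinuousOn.prodMk (ContinuousOn.prodMk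
        (hc.cs.comp hF.continuousOn fun _ h => h.2) ?_) continuousOn_const) ?_
      · exact (continuous_snd.comp hG).continuousOn
      · exact ((continuous_snd.comp continuous_snd).sub continuous_const).continuousOn
    · refine ContinuousOn.congr (f := fun z : X × ((c.V.prod c'.V).prod FD.C) =>
        (((0, (c'.s (z.1, z.2.1.2), z.2.1.1)), z.2.2 + 1) : (c.add c').W)) ?_
        fun z hz => if_neg (not_lt.2 hz.1.le)
      refine ContinuousOn.prodMk (ContinuousOn.prodMk continuousOn_const (ContinuousOn.prodMk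
        (hc'.cs.comp hG.continuousOn fun _ h => h.2) ?_)) ?_
      · exact (continuous_snd.comp hF).continuousOn
      · exact ((continuous_snd.comp continuous_snd).add continuous_const).continuousOn
  · rintro z (hz | hz)
    · refine g2_idem_prodMap (W' := FD.C) ?_ rfl
      rw [if_pos hz.1]
      exact g2_idem_prodMap (W := c.W.prod c'.V) (g2_idem_prodMap (hc.idem _ hz.2) rfl)
        (ContinuousLinearMap.zero_comp _)
    · refine g2_idem_prodMap (W' := FD.C) ?_ rfl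
      rw [if_neg (not_lt.2 hz.1.le)]
      exact g2_idem_prodMap (W' := c'.W.prod c.V) (ContinuousLinearMap.zero_comp _)
        (g2_idem_prodMap (hc'.idem _ hz.2) rfl)
  · rintro z (hz | hz)
    · simp only [if_pos hz.1]
      exact Prod.ext (Prod.ext (Prod.ext (hc.sec _ hz.2) rfl) rfl) rfl
    · simp only [if_neg (not_lt.2 hz.1.le)]
      exact Prod.ext (Prod.ext rfl (Prod.ext (hc'.sec _ hz.2) rfl)) rfl
  · have h1 : Continuous fun w : X × c.V =>
        ((w.1, ((w.2, 0), (1 : ℂ))) : X × ((c.V.prod c'.V).prod FD.C)) := by fun_prop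
    have h2 : Continuous fun w : X × c'.V =>
        ((w.1, ((0, w.2), (-1 : ℂ))) : X × ((c.V.prod c'.V).prod FD.C)) := by fun_prop
    refine (congrArg IsCompact ?_).mp ((hc.cpt.image h1).union (hc'.cpt.image h2))
    ext z
    constructor
    · rintro (⟨w, hw, rfl⟩ | ⟨w, hw, rfl⟩)
      · have a1 : (0 : ℝ) < Complex.re (1 : ℂ) := by simp
        refine ⟨Or.inl ⟨a1, hw.1⟩, (if_pos a1).trans ?_⟩
        exact Prod.ext (Prod.ext (Prod.ext hw.2 rfl) rfl) (sub_self (1 : ℂ))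
      · have a1 : Complex.re (-1 : ℂ) < 0 := by simp
        refine ⟨Or.inr ⟨a1, hw.1⟩, (if_neg (not_lt.2 a1.le)).trans ?_⟩
        exact Prod.ext (Prod.ext rfl (Prod.ext hw.2 rfl)) (neg_add_cancel (1 : ℂ))
    · rintro ⟨hz | hz, h4⟩
      · have h5 := (if_pos hz.1).symm.trans h4
        refine Or.inl ⟨(z.1, z.2.1.1), ⟨hz.2, congrArg (fun t => t.1.1.1) h5⟩, ?_⟩
        refine Prod.ext rfl (Prod.ext (Prod.ext rfl ?_) ?_)
        · exact (congrArg (fun t => t.1.1.2) h5).symm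
        · exact (sub_eq_zero.1 (congrArg Prod.snd h5)).symm
      · have h5 := (if_neg (not_lt.2 hz.1.le)).symm.trans h4
        refine Or.inr ⟨(z.1, z.2.1.2), ⟨hz.2, congrArg (fun t => t.1.2.1) h5⟩, ?_⟩
        refine Prod.ext rfl (Prod.ext (Prod.ext ?_ rfl) ?_)
        · exact (congrArg (fun t => t.1.2.2) h5).symm
        · exact (add_eq_zero_iff_eq_neg.1 (congrArg Prod.snd h5)).symm

theorem g2_rk_le {W W' : FD} (p : W →L[ℂ] W) (q : W' →L[ℂ] W') (u : W →L[ℂ] W')
    (h1 : ∀ x, p x = x → u x ∈ LinearMap.range (q : W' →ₗ[ℂ] W'))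
    (h2 : ∀ x, p x = x → u x = 0 → x = 0) (hp : p ∘L p = p) : rk p ≤ rk q := by
  have h0 : ∀ x : LinearMap.range (p : W →ₗ[ℂ] W), p x.1 = x.1 := by
    rintro ⟨_, y, rfl⟩
    exact congrArg (fun r : W →L[ℂ] W => r y) hp
  refine LinearMap.finrank_le_finrank_of_injective
    (f := (u : W →ₗ[ℂ] W').restrict (p := LinearMap.range (p : W →ₗ[ℂ] W))
      (q := LinearMap.range (q : W' →ₗ[ℂ] W')) fun x hx => h1 x (h0 ⟨x, hx⟩)) ?_
  rw [injective_iff_map_eq_zero]
  exact fun x hx => Subtype.ext (h2 x.1 (h0 x) (congrArg Subtype.val hx))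

theorem g2_rk_le_norm {W : FD} (p q : W →L[ℂ] W) (hp : p ∘L p = p) (h : ‖q - p‖ < 1) :
    rk p ≤ rk q := by
  refine g2_rk_le p q q (fun x _ => ⟨x, rfl⟩) (fun x h1 h2 => ?_) hp
  have h3 := (q - p).le_opNorm x
  rw [_root_.sub_apply, h1, h2, zero_sub, norm_neg] at h3
  by_contra h4
  have h5 : 0 < ‖x‖ := norm_pos_iff.2 h4
  nlinarith

theorem g2_rk_near {W : FD} (p : W →L[ℂ] W) (hp : p ∘L p = p) :
    ∀ᶠ q in 𝓝 p, q ∘L q = q → rk q = rk p := by
  filter_upwards [Metric.ball_mem_nhds p one_pos] with q hq hq'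
  rw [mem_ball_iff_norm] at hq
  exact le_antisymm (g2_rk_le_norm q p hq' (by rwa [norm_sub_rev])) (g2_rk_le_norm p q hp hq)

theorem g2_rk_sum {W W' : FD} (p : W →L[ℂ] W) (q : W' →L[ℂ] W') :
    rk (W := W.prod W') (p.prodMap q) = rk p + rk q := by
  have h : LinearMap.range ((p.prodMap q : W.prod W' →L[ℂ] W.prod W') : W.prod W' →ₗ[ℂ] W.prod W') =
      (LinearMap.range (p : W →ₗ[ℂ] W)).prod (LinearMap.range (q : W' →ₗ[ℂ] W')) :=
    LinearMap.range_prodMap (p : W →ₗ[ℂ] W) (q : W' →ₗ[ℂ] W')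
  rw [rk, h, rk, rk, ← Module.finrank_prod]
  exact LinearEquiv.finrank_eq
    { toFun := fun x => (⟨x.1.1, x.2.1⟩, ⟨x.1.2, x.2.2⟩)
      invFun := fun x => ⟨(x.1.1, x.2.1), x.1.2, x.2.2⟩
      map_add' := fun _ _ => rfl
      map_smul' := fun _ _ => rfl
      left_inv := fun _ => rfl
      right_inv := fun _ => rfl }

theorem g2_rk_iso_le {W W' : FD} (p : W →L[ℂ] W) (q : W' →L[ℂ] W') (u : W →L[ℂ] W')
    (v : W' →L[ℂ] W) (hp : p ∘L p = p) (h1 : v ∘L u = p) (h2 : u ∘L v = q) : rk p ≤ rk q := by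
  have a1 : ∀ x, v (u x) = p x := fun x => congrArg (fun r : W →L[ℂ] W => r x) h1
  have a2 : ∀ y, u (v y) = q y := fun y => congrArg (fun r : W' →L[ℂ] W' => r y) h2
  refine g2_rk_le p q u (fun x hx => ⟨u x, ?_⟩) (fun x hx h => ?_) hp
  · show q (u x) = u x
    rw [← a2, a1, hx]
  · rw [← hx, ← a1, h, map_zero]

theorem g2_deg {X : Type} [TopologicalSpace X] {c : Raw X} (d : ℤ) (hc : c.Good) :
    IsOpen (c.deg d) ∧ IsOpen (c.O \ c.deg d) ∧ (c.part d).Good := by
  have key : ∀ z ∈ c.O, ∀ᶠ w in 𝓝 z, w ∈ c.O ∧ rk (c.p w) = rk (c.p z) := fun z hz => by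
    have h1 := hc.op.mem_nhds hz
    filter_upwards [h1, (hc.cp.continuousAt h1).eventually (g2_rk_near _ (hc.idem z hz))]
      with w a b using ⟨a, b (hc.idem w a)⟩
  have o1 : IsOpen (c.deg d) := isOpen_iff_mem_nhds.2 fun z hz => by
    filter_upwards [key z hz.1] with w hw using ⟨hw.1, hw.2 ▸ hz.2⟩
  have o2 : IsOpen (c.O \ c.deg d) := isOpen_iff_mem_nhds.2 fun z hz => by
    filter_upwards [key z hz.1] with w hw using ⟨hw.1, fun a => hz.2 ⟨hz.1, hw.2 ▸ a.2⟩⟩
  refine ⟨o1, o2, hc.op.inter o1, hc.cp.mono inter_subset_left, hc.cs.mono inter_subset_left,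
    fun z hz => hc.idem z hz.1, fun z hz => hc.sec z hz.1, ?_⟩
  refine (congrArg IsCompact ?_).mp (hc.cpt.diff o2)
  ext z
  constructor
  · rintro ⟨h1, h2⟩
    exact ⟨⟨h1.1, by_contra fun a => h2 ⟨h1.1, a⟩⟩, h1.2⟩
  · rintro ⟨h1, h2⟩
    exact ⟨⟨h1.1, h2⟩, fun a => a.2 h1.2⟩

theorem good2 : S_good2 :=
  ⟨g2_twist, g2_push, g2_prod, g2_add, g2_rk_near, g2_rk_sum,
    fun p q u v hp hq h1 h2 =>
      le_antisymm (g2_rk_iso_le p q u v hp h1 h2) (g2_rk_iso_le q p v u hq h2 h1), g2_deg⟩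

end Pool.Agent.MP_826def_gt.BA
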