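import Pool.Agent.MP_826def_gt.MU.Core

/-!
The two halves of a sum of cocycles, the sum rule and the group laws of the sum.
-/

namespace Pool.Agent.MP_826def_gt.BA

open Set Topology MU

noncomputable section

variable {X : Type} [TopologicalSpace X]

/-- Stabilisation with the zero moved to the point `e x`. -/
abbrev shift {X : Type} (c : Raw X) (E : FD) (e : X → E) : Raw X :=
  ⟨c.V.prod E, c.W.prod E, {z | (z.1, z.2.1) ∈ c.O},
    fun z => (c.p (z.1, z.2.1)).prodMap (ContinuousLinearMap.id ℂ E),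
    fun z => (c.s (z.1, z.2.1), z.2.2 - e z.1)⟩

theorem shift_good (g1 : S_good1) {c : Raw X} (E : FD) {e : X → E} (he : Continuous e)
    (hc : c.Good) : (shift c E e).Good := by
  have hs := g1.stab E hc
  have hq : Continuous fun z : X × (c.V.prod E) => (z.1, z.2.1) := by fun_prop
  refine ⟨hs.op, hs.cp, ?_, hs.idem, ?_, ?_⟩
  · refine ContinuousOn.prodMk (hc.cs.comp hq.continuousOn fun z hz => hz) ?_
    exact (continuous_snd.snd.sub (he.comp continuous_fst)).continuousOn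
  · intro z hz
    exact Prod.ext (hc.sec _ hz) rfl
  · have hk : Continuous fun z : X × c.V => ((z.1, (z.2, e z.1)) : X × (c.V.prod E)) := by
      fun_prop
    have : (shift c E e).Z = (fun z : X × c.V => ((z.1, (z.2, e z.1)) : X × (c.V.prod E))) '' c.Z := by
      ext ⟨x, v, t⟩
      constructor
      · rintro ⟨h1, h2⟩
        have h3 : c.s (x, v) = 0 := congrArg Prod.fst h2
        have h4 : t - e x = 0 := congrArg Prod.snd h2
        exact ⟨(x, v), ⟨h1, h3⟩, by rw [sub_eq_zero.1 h4]⟩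
      · rintro ⟨⟨x', v'⟩, ⟨h1, h2⟩, h3⟩
        cases h3
        exact ⟨h1, Prod.ext h2 (sub_self _)⟩
    rw [this]
    exact hc.cpt.image hk

theorem cls_shift (g1 : S_good1) {c : Raw X} (E : FD) (e : E) (hc : c.Good) :
    cls (shift c E fun _ => e) = cls c := by
  have hp : IsProperMap (Prod.fst : X × unitInterval → X) := isProperMap_fst_of_compactSpace
  have hC : (shift (c.pull (Prod.fst : X × unitInterval → X)) E
      fun z => ((z.2 : ℝ) : ℂ) • e).Good :=
    shift_good g1 E (by fun_prop) (g1.pull hc hp)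
  have h0 : ((shift (c.pull (Prod.fst : X × unitInterval → X)) E
      fun z => ((z.2 : ℝ) : ℂ) • e).pull fun x : X => (x, (0 : unitInterval))) = c.stab E := by
    simp [shift, Raw.pull, Raw.stab]
  have h1 : ((shift (c.pull (Prod.fst : X × unitInterval → X)) E
      fun z => ((z.2 : ℝ) : ℂ) • e).pull fun x : X => (x, (1 : unitInterval))) =
      shift c E fun _ => e := by
    simp [shift, Raw.pull]
  have m := Move.htpy _ hC
  rw [h0, h1] at m
  rw [← cls_move (g1.stab E hc) (shift_good g1 E continuous_const hc) m]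
  exact (cls_move hc (g1.stab E hc) (Move.stab c E)).symm

/-- The special case of a constant split embedding. -/
theorem eqv_emb (e : S_eqv) (c c' : Raw X) (ε : c'.V ≃L[ℂ] c.V) (j : c.W →L[ℂ] c'.W)
    (r : c'.W →L[ℂ] c.W) (hc : c.Good) (hc' : c'.Good) (hr : ∀ w, r (j w) = w)
    (hZ : ∀ z : X × c'.V, (z.1, ε z.2) ∈ c.Z → z ∈ c'.O)
    (H : ∀ z ∈ c'.O, (z.1, ε z.2) ∈ c.O ∧ (∀ w, j (c.p (z.1, ε z.2) (r w)) = c'.p z w) ∧
      j (c.s (z.1, ε z.2)) = c'.s z) : cls c = cls c' := by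
  have hq : Continuous fun z : X × c'.V => (z.1, ε z.2) := by fun_prop
  have hp : ContinuousOn (fun z : X × c'.V => c.p (z.1, ε z.2)) c'.O :=
    hc.cp.comp hq.continuousOn fun z hz => (H z hz).1
  refine e c c' ε c'.O (fun z => j ∘L c.p (z.1, ε z.2)) (fun z => c.p (z.1, ε z.2) ∘L r) hc hc'
    hc'.op (fun z hz => hz.1) hZ (continuousOn_const.clm_comp hp) (hp.clm_comp continuousOn_const)
    fun z hz => ?_
  obtain ⟨h1, h2, h3⟩ := H z hz
  have hi : ∀ w, c.p (z.1, ε z.2) (c.p (z.1, ε z.2) w) = c.p (z.1, ε z.2) w := fun w =>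
    congrArg (fun q : c.W →L[ℂ] c.W => q w) (hc.idem _ h1)
  refine ⟨hz, h1, ?_, ?_, ?_⟩
  · ext w
    simp [hr, hi]
  · ext w
    simp [hi, h2]
  · simp [hc.sec _ h1, h3]

theorem res_Z {X : Type} (c : Raw X) (G : Set (X × c.V)) : (c.res G).Z = c.Z ∩ G := by
  ext z
  exact ⟨fun h => ⟨⟨h.1.1, h.2⟩, h.1.2⟩, fun h => ⟨⟨h.1.1, h.2⟩, h.1.2⟩⟩

theorem half (g1 : S_good1) (g2 : S_good2) (e : S_eqv) : S_half := by
  intro X _ c c' G hc hc' hG hK
  have hd : (c.res G).Good := g1.res hc hG hK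
  constructor
  · have hq : Continuous fun z : X × ((c.V.prod c'.V).prod FD.C) => (z.1, z.2.1.1) := by fun_prop
    have hre : Continuous fun z : X × ((c.V.prod c'.V).prod FD.C) => z.2.2.re := by fun_prop
    have hk : Continuous fun z : X × c.V =>
        ((z.1, ((z.2, 0), 1)) : X × ((c.V.prod c'.V).prod FD.C)) := by fun_prop
    have hZ : (c.add c').Z ∩ {z | 0 < z.2.2.re ∧ (z.1, z.2.1.1) ∈ G} = (fun z : X × c.V =>
        ((z.1, ((z.2, 0), 1)) : X × ((c.V.prod c'.V).prod FD.C))) '' (c.Z ∩ G) := by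
      ext ⟨x, ⟨v, v'⟩, t⟩
      constructor
      · rintro ⟨⟨h1, h2⟩, h3, h4⟩
        have h3' : 0 < t.re := h3
        have h5 : (x, v) ∈ c.O := by
          rcases h1 with h1 | h1
          · exact h1.2
          · exact absurd h1.1 (not_lt.2 h3'.le)
        simp only [if_pos h3', Prod.mk_eq_zero, sub_eq_zero] at h2
        obtain ⟨⟨⟨h6, h7⟩, -⟩, h8⟩ := h2
        exact ⟨(x, v), ⟨⟨h5, h6⟩, h4⟩, by rw [h7, h8]⟩
      · rintro ⟨⟨x', v''⟩, ⟨⟨h1, h2⟩, h3⟩, h4⟩
        cases h4
        refine ⟨⟨Or.inl ⟨by simp, h1⟩, ?_⟩, by simp, h3⟩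
        simp [h2]
    have hA : ((c.add c').res {z | 0 < z.2.2.re ∧ (z.1, z.2.1.1) ∈ G}).Good :=
      g1.res (g2.add hc hc') ((isOpen_lt continuous_const hre).inter (hG.preimage hq))
        (hZ ▸ hK.image hk)
    rw [← cls_shift g1 (c'.V.prod FD.C) (0, 1) hd]
    symm
    refine eqv_emb e _ _ (ContinuousLinearEquiv.prodAssoc ℂ c.V c'.V ℂ)
      (((ContinuousLinearMap.inl ℂ (c.W × c'.V) (c'.W × c.V)).prodMap
        (ContinuousLinearMap.id ℂ ℂ)) ∘L
          (ContinuousLinearEquiv.prodAssoc ℂ c.W c'.V ℂ).symm.toContinuousLinearMap)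
      ((ContinuousLinearEquiv.prodAssoc ℂ c.W c'.V ℂ).toContinuousLinearMap ∘L
        ((ContinuousLinearMap.fst ℂ (c.W × c'.V) (c'.W × c.V)).prodMap
          (ContinuousLinearMap.id ℂ ℂ)))
      (shift_good g1 _ continuous_const hd) hA (fun w => rfl) ?_ ?_
    · rintro ⟨x, ⟨v, v'⟩, t⟩ ⟨h1, h2⟩
      have h3 : t - 1 = 0 := congrArg (fun w => w.2.2) h2
      have h4 : 0 < t.re := by rw [sub_eq_zero.1 h3]; simp
      exact ⟨Or.inl ⟨h4, h1.1⟩, h4, h1.2⟩
    · rintro ⟨x, ⟨v, v'⟩, t⟩ ⟨h1, h3, h4⟩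
      have h3' : 0 < t.re := h3
      have h5 : (x, v) ∈ c.O := by
        rcases h1 with h1 | h1
        · exact h1.2
        · exact absurd h1.1 (not_lt.2 h3'.le)
      refine ⟨⟨h5, h4⟩, fun w => ?_, ?_⟩
      · simp only [if_pos h3']
        rfl
      · simp only [if_pos h3']
        exact Prod.ext (Prod.ext (Prod.ext rfl (sub_zero _)) rfl) rfl
  · have hq : Continuous fun z : X × ((c'.V.prod c.V).prod FD.C) => (z.1, z.2.1.2) := by fun_prop
    have hre : Continuous fun z : X × ((c'.V.prod c.V).prod FD.C) => z.2.2.re := by fun_prop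
    have hk : Continuous fun z : X × c.V =>
        ((z.1, ((0, z.2), -1)) : X × ((c'.V.prod c.V).prod FD.C)) := by fun_prop
    have hZ : (c'.add c).Z ∩ {z | z.2.2.re < 0 ∧ (z.1, z.2.1.2) ∈ G} = (fun z : X × c.V =>
        ((z.1, ((0, z.2), -1)) : X × ((c'.V.prod c.V).prod FD.C))) '' (c.Z ∩ G) := by
      ext ⟨x, ⟨v', v⟩, t⟩
      constructor
      · rintro ⟨⟨h1, h2⟩, h3, h4⟩
        have h3' : ¬ 0 < t.re := not_lt.2 (le_of_lt h3)
        have h5 : (x, v) ∈ c.O := by
          rcases h1 with h1 | h1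
          · exact absurd h1.1 h3'
          · exact h1.2
        simp only [if_neg h3', Prod.mk_eq_zero, add_eq_zero_iff_eq_neg] at h2
        obtain ⟨⟨-, h6, h7⟩, h8⟩ := h2
        exact ⟨(x, v), ⟨⟨h5, h6⟩, h4⟩, by rw [h7, h8]⟩
      · rintro ⟨⟨x', v''⟩, ⟨⟨h1, h2⟩, h3⟩, h4⟩
        cases h4
        refine ⟨⟨Or.inr ⟨by simp, h1⟩, ?_⟩, by simp, h3⟩
        have : ¬ (1 : ℝ) < 0 := by norm_num
        simp [h2, this]
    have hA : ((c'.add c).res {z | z.2.2.re < 0 ∧ (z.1, z.2.1.2) ∈ G}).Good :=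
      g1.res (g2.add hc' hc) ((isOpen_lt hre continuous_const).inter (hG.preimage hq))
        (hZ ▸ hK.image hk)
    rw [← cls_shift g1 (c'.V.prod FD.C) (0, -1) hd]
    symm
    refine eqv_emb e _ _ (((ContinuousLinearEquiv.prodComm ℂ c'.V c.V).prodCongr
        (ContinuousLinearEquiv.refl ℂ ℂ)).trans (ContinuousLinearEquiv.prodAssoc ℂ c.V c'.V ℂ))
      (((ContinuousLinearMap.inr ℂ (c'.W × c.V) (c.W × c'.V)).prodMap
        (ContinuousLinearMap.id ℂ ℂ)) ∘L
          (ContinuousLinearEquiv.prodAssoc ℂ c.W c'.V ℂ).symm.toContinuousLinearMap)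
      ((ContinuousLinearEquiv.prodAssoc ℂ c.W c'.V ℂ).toContinuousLinearMap ∘L
        ((ContinuousLinearMap.snd ℂ (c'.W × c.V) (c.W × c'.V)).prodMap
          (ContinuousLinearMap.id ℂ ℂ)))
      (shift_good g1 _ continuous_const hd) hA (fun w => rfl) ?_ ?_
    · rintro ⟨x, ⟨v', v⟩, t⟩ ⟨h1, h2⟩
      have h3 : t - (-1) = 0 := congrArg (fun w => w.2.2) h2
      have h4 : t.re < 0 := by rw [sub_eq_zero.1 h3]; simp
      exact ⟨Or.inr ⟨h4, h1.1⟩, h4, h1.2⟩
    · rintro ⟨x, ⟨v', v⟩, t⟩ ⟨h1, h3, h4⟩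
      have h3' : ¬ 0 < t.re := not_lt.2 (le_of_lt h3)
      have h5 : (x, v) ∈ c.O := by
        rcases h1 with h1 | h1
        · exact absurd h1.1 h3'
        · exact h1.2
      refine ⟨⟨h5, h4⟩, fun w => ?_, ?_⟩
      · simp only [if_neg h3']
        rfl
      · simp only [if_neg h3']
        exact Prod.ext (Prod.ext rfl (Prod.ext rfl (sub_zero _))) (sub_neg_eq_add _ _)

theorem res_univ {X : Type} (c : Raw X) : c.res univ = c := by
  cases c
  simp [Raw.res]

theorem res_res {X : Type} (c : Raw X) {G G' : Set (X × c.V)} (h : G' ⊆ G) :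
    (c.res G).res G' = c.res G' := by
  simp only [Raw.res, inter_assoc, inter_eq_self_of_subset_right h]

/-- The right half of a sum. -/
abbrev HR {X : Type} (c c' : Raw X) (G : Set (X × c.V)) : Set (X × (c.add c').V) :=
  {z | 0 < z.2.2.re ∧ (z.1, z.2.1.1) ∈ G}

/-- The left half of a sum. -/
abbrev HL {X : Type} (c c' : Raw X) (G : Set (X × c'.V)) : Set (X × (c.add c').V) :=
  {z | z.2.2.re < 0 ∧ (z.1, z.2.1.2) ∈ G}

theorem HR_open (c c' : Raw X) {G : Set (X × c.V)} (hG : IsOpen G) : IsOpen (HR c c' G) := by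
  have hq : Continuous fun z : X × ((c.V.prod c'.V).prod FD.C) => (z.1, z.2.1.1) := by fun_prop
  have hre : Continuous fun z : X × ((c.V.prod c'.V).prod FD.C) => z.2.2.re := by fun_prop
  exact (isOpen_lt continuous_const hre).inter (hG.preimage hq)

theorem HL_open (c c' : Raw X) {G : Set (X × c'.V)} (hG : IsOpen G) : IsOpen (HL c c' G) := by
  have hq : Continuous fun z : X × ((c.V.prod c'.V).prod FD.C) => (z.1, z.2.1.2) := by fun_prop
  have hre : Continuous fun z : X × ((c.V.prod c'.V).prod FD.C) => z.2.2.re := by fun_prop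
  exact (isOpen_lt hre continuous_const).inter (hG.preimage hq)

theorem H_disj {X : Type} (c c' : Raw X) (G : Set (X × c.V)) (G' : Set (X × c'.V)) :
    Disjoint (HR c c' G) (HL c c' G') :=
  Set.disjoint_left.2 fun _ h h' => lt_asymm h.1 h'.1

theorem H_cover {X : Type} (c c' : Raw X) : (c.add c').Z ⊆ HR c c' univ ∪ HL c c' univ :=
  fun _ h => h.1.imp (fun h => ⟨h.1, trivial⟩) fun h => ⟨h.1, trivial⟩

theorem sum (g1 : S_good1) (g2 : S_good2) (_e : S_eqv) (em : S_empty) (a : S_add) (s : S_split)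
    (hh : S_half) : S_sum := by
  intro X _
  have rule : ∀ (c : Raw X) (G G' : Set (X × c.V)), c.Good → IsOpen G → IsOpen G' →
      Disjoint G G' → c.Z ⊆ G ∪ G' → cls c = add0 (cls (c.res G)) (cls (c.res G')) := by
    intro c G G' hc hG hG' hd hZ
    rw [s c G G' hc hG hG' hd hZ, (a _ _ (g1.res' hc hG hG' hd hZ)
      (g1.res' hc hG' hG hd.symm (by rwa [union_comm]))).1]
  have hR : ∀ c c' : Raw X, c.Good → c'.Good → cls ((c.add c').res (HR c c' univ)) = cls c := by
    intro c c' hc hc'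
    rw [(hh c c' univ hc hc' isOpen_univ (by rw [inter_univ]; exact hc.cpt)).1, res_univ]
  have hL : ∀ c c' : Raw X, c.Good → c'.Good → cls ((c.add c').res (HL c c' univ)) = cls c' := by
    intro c c' hc hc'
    rw [(hh c' c univ hc' hc isOpen_univ (by rw [inter_univ]; exact hc'.cpt)).2, res_univ]
  refine ⟨rule, fun x y => ?_, fun x y z => ?_, fun x y => ?_, fun x => ?_⟩
  · refine ⟨(rep x).add (rep y), HR _ _ univ, HL _ _ univ, g2.add (rep_good x) (rep_good y),
      HR_open _ _ isOpen_univ, HL_open _ _ isOpen_univ, H_disj _ _ _ _, H_cover _ _, ?_, ?_⟩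
    · rw [hR _ _ (rep_good x) (rep_good y), cls_rep]
    · rw [hL _ _ (rep_good x) (rep_good y), cls_rep]
  · induction x using h_ind with | H b hb => ?_
    induction y using h_ind with | H c hc => ?_
    induction z using h_ind with | H d hd => ?_
    have hbc := g2.add hb hc
    have hA := g2.add hbc hd
    have o1 : IsOpen (HR b c univ) := HR_open _ _ isOpen_univ
    have o2 : IsOpen (HL b c univ) := HL_open _ _ isOpen_univ
    have k1 : IsCompact ((b.add c).Z ∩ HR b c univ) := by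
      rw [← res_Z]
      exact (g1.res' hbc o1 o2 (H_disj _ _ _ _) (H_cover _ _)).cpt
    have k2 : IsCompact ((b.add c).Z ∩ HL b c univ) := by
      rw [← res_Z]
      exact (g1.res' hbc o2 o1 (H_disj _ _ _ _).symm (by rw [union_comm]; exact H_cover _ _)).cpt
    have O1 : IsOpen (HR (b.add c) d (HR b c univ)) := HR_open _ _ o1
    have O2 : IsOpen (HR (b.add c) d (HL b c univ)) := HR_open _ _ o2
    have O3 : IsOpen (HL (b.add c) d univ) := HL_open _ _ isOpen_univ
    have dj : Disjoint (HR (b.add c) d (HR b c univ))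
        (HR (b.add c) d (HL b c univ) ∪ HL (b.add c) d univ) :=
      Set.disjoint_left.2 fun _ h h' => h'.elim (fun h' => lt_asymm h.2.1 h'.2.1)
        fun h' => lt_asymm h.1 h'.1
    have cv : ((b.add c).add d).Z ⊆ HR (b.add c) d (HR b c univ) ∪
        (HR (b.add c) d (HL b c univ) ∪ HL (b.add c) d univ) := by
      rintro z ⟨h | h, -⟩
      · rcases h.2 with h' | h'
        · exact Or.inl ⟨h.1, h'.1, trivial⟩
        · exact Or.inr (Or.inl ⟨h.1, h'.1, trivial⟩)
      · exact Or.inr (Or.inr ⟨h.1, trivial⟩)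
    have hB := g1.res' hA (O2.union O3) O1 dj.symm (by rwa [union_comm])
    have e1 := rule _ _ _ hA O1 (O2.union O3) dj cv
    have e2 := rule _ _ _ hB O2 O3 (H_disj _ _ _ _) fun z hz => hz.1.2
    rw [res_res _ subset_union_left, res_res _ subset_union_right,
      (hh (b.add c) d _ hbc hd o2 k2).1, hL _ _ hb hc, hL _ _ hbc hd] at e2
    rw [e2, (hh (b.add c) d _ hbc hd o1 k1).1, hR _ _ hb hc] at e1
    rw [(a b c hb hc).1, (a _ d hbc hd).1, e1]
  · exact (a _ _ (rep_good x) (rep_good y)).2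
  · induction x using h_ind with | H c hc => ?_
    have e1 := rule c ∅ univ hc isOpen_empty isOpen_univ (Set.empty_disjoint _) (by simp)
    have hz : (c.res ∅).Z = ∅ := by rw [res_Z, inter_empty]
    rw [em _ (g1.res hc isOpen_empty (by simp)) hz, res_univ] at e1
    exact e1.symm

end

end Pool.Agent.MP_826def_gt.BA
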