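import Pool.Agent.MP_826def_gt.MU.Core

/-!
The product of cocycles: it is well defined on classes, commutative, additive, associative and
unital.
-/

namespace Pool.Agent.MP_826def_gt.BA

open Set Topology MU

noncomputable section

variable {X K Y : Type} [TopologicalSpace X] [TopologicalSpace K] [TopologicalSpace Y]

/-- Cocycles that differ by constant linear maps have the same class. -/
theorem cls_lin (e : S_eqv) {c c' : Raw X} (hc : c.Good) (hc' : c'.Good) (φ : c'.V ≃L[ℂ] c.V)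
    (j : c.W →L[ℂ] c'.W) (r : c'.W →L[ℂ] c.W) (hrj : ∀ w, r (j w) = w)
    (hO : ∀ z ∈ c'.O, (z.1, φ z.2) ∈ c.O)
    (hZ : ∀ z : X × c'.V, (z.1, φ z.2) ∈ c.O → c.s (z.1, φ z.2) = 0 → z ∈ c'.O)
    (hp : ∀ z ∈ c'.O, ∀ w, c'.p z w = j (c.p (z.1, φ z.2) (r w)))
    (hs : ∀ z ∈ c'.O, c'.s z = j (c.s (z.1, φ z.2))) : cls c = cls c' := by
  refine e c c' φ c'.O (fun z => c'.p z ∘L j) (fun z => r ∘L c'.p z) hc hc' hc'.op
    (fun z hz => hz.1) (fun z hz => hZ z hz.1 hz.2) (hc'.cp.clm_comp continuousOn_const)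
    (continuousOn_const.clm_comp hc'.cp) fun z hz => ⟨hz, hO z hz, ?_, ?_, ?_⟩
  · ext w
    have h1 := congrArg (fun q : c'.W →L[ℂ] c'.W => q (j w)) (hc'.idem z hz)
    simp only [ContinuousLinearMap.comp_apply] at h1 ⊢
    rw [h1, hp z hz, hrj, hrj]
  · ext w
    have h1 := congrArg (fun q : c.W →L[ℂ] c.W => q (r w)) (hc.idem _ (hO z hz))
    simp only [ContinuousLinearMap.comp_apply] at h1 ⊢
    rw [hp z hz w, hrj, hp z hz, hrj, h1]
  · simp only [ContinuousLinearMap.comp_apply]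
    rw [← hs z hz, hc'.sec z hz]

theorem Pr.symm {f : C(X, K)} {g : C(X, Y)} (h : Pr f g) : Pr g f :=
  (Homeomorph.prodComm K Y).isProperMap.comp h

theorem Pr.cyl {f : C(X, K)} {g : C(X, Y)} (h : Pr f g) :
    Pr (f.prodMap (ContinuousMap.id unitInterval))
      (g.comp (ContinuousMap.fst : C(X × unitInterval, X))) := by
  have h1 : IsProperMap (Prod.map (fun x => (f x, g x)) (id : unitInterval → unitInterval)) :=
    IsProperMap.prodMap h isProperMap_id
  let e : (K × Y) × unitInterval ≃ₜ (K × unitInterval) × Y :=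
    { toFun := fun z => ((z.1.1, z.2), z.1.2)
      invFun := fun z => ((z.1.1, z.2), z.1.2)
      left_inv := fun _ => rfl
      right_inv := fun _ => rfl
      continuous_toFun := by fun_prop
      continuous_invFun := by fun_prop }
  exact e.isProperMap.comp h1

theorem prod_comm (g2 : S_good2) (e : S_eqv) {f : C(X, K)} {g : C(X, Y)} (h : Pr f g) {a : Raw K}
    {c : Raw Y} (ha : a.Good) (hc : c.Good) : cls (a.prod c f g) = cls (c.prod a g f) :=
  cls_lin e (g2.prod ha hc h) (g2.prod hc ha (Pr.symm h)) (ContinuousLinearEquiv.prodComm ℂ _ _)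
    (ContinuousLinearEquiv.prodComm ℂ a.W c.W : a.W × c.W →L[ℂ] c.W × a.W)
    (ContinuousLinearEquiv.prodComm ℂ c.W a.W : c.W × a.W →L[ℂ] a.W × c.W) (fun _ => rfl)
    (fun _ hz => ⟨hz.2, hz.1⟩) (fun _ hz _ => ⟨hz.2, hz.1⟩) (fun _ _ _ => rfl) fun _ _ => rfl

/-- The exchange of the last two factors. -/
def exchL (A B C : FD) : ((A × B) × C) ≃L[ℂ] (A × C) × B :=
  ((ContinuousLinearEquiv.prodAssoc ℂ A B C).trans
    ((ContinuousLinearEquiv.refl ℂ A).prodCongr (ContinuousLinearEquiv.prodComm ℂ B C))).trans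
    (ContinuousLinearEquiv.prodAssoc ℂ A C B).symm

theorem prod_move (g1 : S_good1) (g2 : S_good2) (e : S_eqv) {f : C(X, K)} {g : C(X, Y)}
    (h : Pr f g) {c : Raw Y} (hc : c.Good) (a a' : Raw K) (ha : a.Good) (ha' : a'.Good)
    (m : Move a a') : cls (a.prod c f g) = cls (a'.prod c f g) := by
  cases m with
  | germ _ O p s hO hp hs hZ =>
    refine cls_lin e (g2.prod ha hc h) (g2.prod ha' hc h) (ContinuousLinearEquiv.refl ℂ _)
      (ContinuousLinearMap.id ℂ _) (ContinuousLinearMap.id ℂ _) (fun _ => rfl)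
      (fun _ hz => ⟨hO hz.1, hz.2⟩)
      (fun _ hz h0 => ⟨hZ ⟨hz.1, congrArg Prod.fst h0⟩, hz.2⟩) (fun z hz w => ?_) fun z hz => ?_
    · exact Prod.ext (congrArg (fun q : a.W →L[ℂ] a.W => q w.1) (hp hz.1)) rfl
    · exact Prod.ext (hs hz.1) rfl
  | htpy C hC =>
    exact cls_move (g2.prod ha hc h) (g2.prod ha' hc h)
      (Move.htpy (C.prod c (f.prodMap (ContinuousMap.id unitInterval))
        (g.comp (ContinuousMap.fst : C(X × unitInterval, X)))) (g2.prod hC hc (Pr.cyl h)))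
  | stab _ E =>
    have h1 := g2.prod ha hc h
    rw [cls_move h1 (g1.stab E h1) (Move.stab _ E)]
    exact cls_lin e (g1.stab E h1) (g2.prod ha' hc h) (exchL a.V E c.V)
      (exchL a.W c.W E : (a.W × c.W) × E →L[ℂ] (a.W × E) × c.W)
      (exchL a.W E c.W : (a.W × E) × c.W →L[ℂ] (a.W × c.W) × E) (fun _ => rfl)
      (fun _ hz => hz) (fun _ hz _ => hz) (fun _ _ _ => rfl) fun _ _ => rfl
  | viso _ V' φ =>
    exact cls_lin e (g2.prod ha hc h) (g2.prod ha' hc h)
      (φ.prodCongr (ContinuousLinearEquiv.refl ℂ c.V))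
      (ContinuousLinearMap.id ℂ _) (ContinuousLinearMap.id ℂ _) (fun _ => rfl)
      (fun _ hz => hz) (fun _ hz _ => hz) (fun _ _ _ => rfl) fun _ _ => rfl
  | wemb _ W' j r hrj =>
    exact cls_lin e (g2.prod ha hc h) (g2.prod ha' hc h) (ContinuousLinearEquiv.refl ℂ _)
      (j.prodMap (ContinuousLinearMap.id ℂ c.W)) (r.prodMap (ContinuousLinearMap.id ℂ c.W))
      (fun w => Prod.ext (congrArg (fun q : a.W →L[ℂ] a.W => q w.1) hrj) rfl)
      (fun _ hz => hz) (fun _ hz _ => hz) (fun _ _ _ => rfl) fun _ _ => rfl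

theorem prod_cls (g1 : S_good1) (g2 : S_good2) (e : S_eqv) {f : C(X, K)} {g : C(X, Y)}
    (h : Pr f g) {a : Raw K} {c : Raw Y} (ha : a.Good) (hc : c.Good) :
    prod0 f g (cls a) (cls c) = cls (a.prod c f g) := by
  have h1 := rep_lift (fun a : Raw K => cls (a.prod (rep (cls c)) f g))
    (prod_move g1 g2 e h (rep_good _)) ha
  have h2 := rep_lift (fun c : Raw Y => cls (c.prod a g f)) (prod_move g1 g2 e (Pr.symm h) ha) hc
  rw [prod0, h1, prod_comm g2 e h ha (rep_good _), h2, prod_comm g2 e h ha hc]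

omit [TopologicalSpace X] [TopologicalSpace K] [TopologicalSpace Y] in
theorem prod_res (a : Raw K) (c : Raw Y) (f : X → K) (g : X → Y) (G : Set (K × a.V)) :
    (a.prod c f g).res {z | (f z.1, z.2.1) ∈ G} = (a.res G).prod c f g := by
  have : (a.prod c f g).O ∩ {z | (f z.1, z.2.1) ∈ G} = ((a.res G).prod c f g).O :=
    Set.ext fun _ => ⟨fun hz => ⟨⟨hz.1.1, hz.2⟩, hz.1.2⟩, fun hz => ⟨⟨hz.1.1, hz.2⟩, hz.1.2⟩⟩
  exact congrArg (fun O => (⟨(a.prod c f g).V, (a.prod c f g).W, O, (a.prod c f g).p,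
    (a.prod c f g).s⟩ : Raw X)) this

theorem prod_add (g1 : S_good1) (g2 : S_good2) (e : S_eqv) (s : S_sum) {f : C(X, K)}
    {g : C(X, Y)} (h : Pr f g) (a b : MU.h K) (y : MU.h Y) :
    prod0 f g (add0 a b) y = add0 (prod0 f g a y) (prod0 f g b y) := by
  obtain ⟨c, G, G', hc, hG, hG', hd, hZ, rfl, rfl⟩ := (s (X := K)).2.1 a b
  induction y using h_ind with
  | H d hd' =>
  have hcont : Continuous fun z : X × (c.prod d f g).V => ((f z.1, z.2.1) : K × c.V) := by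
    fun_prop
  rw [← (s (X := K)).1 c G G' hc hG hG' hd hZ, prod_cls g1 g2 e h hc hd',
    prod_cls g1 g2 e h (g1.res' hc hG hG' hd hZ) hd',
    prod_cls g1 g2 e h (g1.res' hc hG' hG hd.symm (union_comm G G' ▸ hZ)) hd',
    ← prod_res, ← prod_res]
  exact (s (X := X)).1 _ _ _ (g2.prod hc hd' h) (hG.preimage hcont) (hG'.preimage hcont)
    (hd.preimage _) fun z hz => hZ ⟨hz.1.1, congrArg Prod.fst hz.2⟩

theorem prod (g1 : S_good1) (g2 : S_good2) (e : S_eqv) (s : S_sum) : S_prod := by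
  intro X K Y _ _ _ f g h
  have hc : ∀ a y, prod0 f g a y = prod0 g f y a := fun a y =>
    prod_comm g2 e h (rep_good a) (rep_good y)
  refine ⟨fun a c ha hc => prod_cls g1 g2 e h ha hc, hc, prod_add g1 g2 e s h, fun a x y => ?_⟩
  rw [hc, hc, hc, prod_add g1 g2 e s (Pr.symm h)]

theorem pr_id [T2Space K] (f : C(X, K)) : Pr f (ContinuousMap.id X) := by
  refine IsClosedEmbedding.isProperMap ⟨?_, ?_⟩
  · exact IsEmbedding.of_comp (by fun_prop) continuous_snd IsEmbedding.id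
  · have : (range fun x => (f x, (ContinuousMap.id X) x)) = {z : K × X | f z.2 = z.1} :=
      Set.ext fun z => ⟨fun ⟨x, hx⟩ => hx ▸ rfl, fun hz => ⟨z.2, Prod.ext hz rfl⟩⟩
    rw [this]
    exact isClosed_eq (by fun_prop) continuous_fst

theorem one_prod (g1 : S_good1) (g2 : S_good2) (e : S_eqv) (p : S_prod) [CompactSpace K]
    [T2Space K] (f : C(X, K)) (x : MU.h X) : prod0 f id (cls (Raw.one K)) x = x := by
  induction x using h_ind with
  | H c hc =>
  refine ((p f (ContinuousMap.id X) (pr_id f)).1 _ c (g1.one K) hc).trans (Eq.symm ?_)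
  exact cls_lin e hc (g2.prod (g1.one K) hc (pr_id f))
    (ContinuousLinearEquiv.uniqueProd ℂ c.V Unit) (ContinuousLinearMap.inr ℂ Unit c.W)
    (ContinuousLinearMap.snd ℂ Unit c.W) (fun _ => rfl) (fun _ hz => hz.2)
    (fun _ hz _ => ⟨trivial, hz⟩) (fun _ _ _ => rfl) fun _ _ => rfl

theorem laws (g1 : S_good1) (g2 : S_good2) (e : S_eqv) (em : S_empty) (_s : S_sum) (ep : S_eps)
    (p : S_prod) : S_laws where
  assoc := by
    intro X Y Y' A B C _ _ _ _ _ _ f' f₁ f₂ g g₁ g₂ f k h1 h2 h3 p1 p2 p3 p4 a b c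
    induction a using h_ind with
    | H a ha =>
    induction b using h_ind with
    | H b hb =>
    induction c using h_ind with
    | H c hc =>
    rw [(p f₁ f₂ p2).1 a b ha hb, (p g₁ g₂ p4).1 b c hb hc,
      (p f' k p1).1 _ c (g2.prod ha hb p2) hc, (p f g p3).1 a _ ha (g2.prod hb hc p4)]
    refine cls_lin e (g2.prod (g2.prod ha hb p2) hc p1) (g2.prod ha (g2.prod hb hc p4) p3)
      (ContinuousLinearEquiv.prodAssoc ℂ a.V b.V c.V).symm
      (ContinuousLinearEquiv.prodAssoc ℂ a.W b.W c.W : (a.W × b.W) × c.W →L[ℂ] a.W × b.W × c.W)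
      ((ContinuousLinearEquiv.prodAssoc ℂ a.W b.W c.W).symm :
        a.W × b.W × c.W →L[ℂ] (a.W × b.W) × c.W) (fun _ => rfl) (fun z hz => ?_)
      (fun z hz _ => ?_) (fun z _ w => ?_) fun z _ => ?_
    · show ((f₁ (f' z.1), z.2.1) ∈ a.O ∧ (f₂ (f' z.1), z.2.2.1) ∈ b.O) ∧ (k z.1, z.2.2.2) ∈ c.O
      rw [h1, h2, ← h3]
      exact ⟨⟨hz.1, hz.2.1⟩, hz.2.2⟩
    · have hz' : ((f₁ (f' z.1), z.2.1) ∈ a.O ∧ (f₂ (f' z.1), z.2.2.1) ∈ b.O) ∧
          (k z.1, z.2.2.2) ∈ c.O := hz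
      rw [h1, h2, ← h3] at hz'
      exact ⟨hz'.1.1, hz'.1.2, hz'.2⟩
    · show (a.p (f z.1, z.2.1) w.1, b.p (g₁ (g z.1), z.2.2.1) w.2.1, c.p (g₂ (g z.1), z.2.2.2) w.2.2)
        = (a.p (f₁ (f' z.1), z.2.1) w.1, b.p (f₂ (f' z.1), z.2.2.1) w.2.1,
          c.p (k z.1, z.2.2.2) w.2.2)
      rw [h1, h2, h3]
    · show (a.s (f z.1, z.2.1), b.s (g₁ (g z.1), z.2.2.1), c.s (g₂ (g z.1), z.2.2.2))
        = (a.s (f₁ (f' z.1), z.2.1), b.s (f₂ (f' z.1), z.2.2.1), c.s (k z.1, z.2.2.2))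
      rw [h1, h2, h3]
  one := fun f x => one_prod g1 g2 e p f x
  neg := by
    intro X _ x
    have hp := pr_id (ContinuousMap.const X ())
    have h1 := (p _ _ hp).2.2.1 (cls Raw.eps) (cls (Raw.one Unit)) x
    have h2 : prod0 (ContinuousMap.const X ()) (ContinuousMap.id X) (cls (Raw.one Unit)) x = x :=
      one_prod g1 g2 e p _ x
    rw [h2, ep] at h1
    refine h1.symm.trans ?_
    induction x using h_ind with
    | H c hc =>
    rw [zero0, (p _ _ hp).1 _ c Raw.good_empty hc]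
    exact em _ (g2.prod Raw.good_empty hc hp) (eq_empty_of_forall_notMem fun _ hz => hz.1.1)

end

end Pool.Agent.MP_826def_gt.BA
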