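import Pool.Agent.MP_826def_gt.MU.Core

/-!
Pull back, integration over a vector space and twisting are well defined and additive.
-/

namespace Pool.Agent.MP_826def_gt.BA

open Set Topology Pool.Agent.MP_826def_gt.MU

noncomputable section

variable {X X' : Type} [TopologicalSpace X] [TopologicalSpace X']

/-- Constant changes of the two vector spaces do not change the class. -/
theorem cls_const (g1 : S_good1) (c c' : Raw X) (hc : c.Good) (hc' : c'.Good)
    (e : c'.V ≃L[ℂ] c.V) (j : c.W →L[ℂ] c'.W) (r : c'.W →L[ℂ] c.W)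
    (hr : r ∘L j = ContinuousLinearMap.id ℂ c.W)
    (hO : ∀ z : X × c'.V, z ∈ c'.O ↔ (z.1, e z.2) ∈ c.O)
    (hp : ∀ z ∈ c'.O, c'.p z = j ∘L c.p (z.1, e z.2) ∘L r)
    (hs : ∀ z ∈ c'.O, c'.s z = j (c.s (z.1, e z.2))) : cls c = cls c' := by
  have h1 := g1.viso c'.V e hc
  have h2 := g1.wemb (c := c.viso c'.V e) c'.W j r hr h1
  rw [cls_move hc h1 (Move.viso c c'.V e), cls_move h1 h2 (Move.wemb (c.viso c'.V e) c'.W j r hr)]
  exact cls_move h2 hc' (Move.germ ((c.viso c'.V e).wemb c'.W j r) c'.O c'.p c'.s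
    (fun z hz => (hO z).1 hz) hp hs fun z hz => (hO z).2 hz.1)

/-- An operation that commutes with restriction is additive. -/
theorem additive (g1 : S_good1) (s : S_sum) (F : Raw X → Raw X') (F0 : h X → h X')
    (hF : ∀ c : Raw X, c.Good → F0 (cls c) = cls (F c))
    (hS : ∀ (c : Raw X) (G G' : Set (X × c.V)), c.Good → IsOpen G → IsOpen G' → Disjoint G G' →
      c.Z ⊆ G ∪ G' → cls (F c) = add0 (cls (F (c.res G))) (cls (F (c.res G')))) (x y : h X) :
    F0 (add0 x y) = add0 (F0 x) (F0 y) := by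
  obtain ⟨c, G, G', hc, hG, hG', hd, hZ, rfl, rfl⟩ := s.2.1 x y
  rw [← s.1 c G G' hc hG hG' hd hZ, hF c hc, hF _ (g1.res' hc hG hG' hd hZ),
    hF _ (g1.res' hc hG' hG hd.symm (union_comm G G' ▸ hZ))]
  exact hS c G G' hc hG hG' hd hZ

theorem pull_move (g1 : S_good1) {f : X' → X} (hf : IsProperMap f) (c c' : Raw X)
    (m : Move c c') : Move (c.pull f) (c'.pull f) := by
  cases m with
  | germ c O p s h1 h2 h3 h4 =>
    exact Move.germ (c.pull f) {z | (f z.1, z.2) ∈ O} (fun z => p (f z.1, z.2))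
      (fun z => s (f z.1, z.2)) (fun z hz => h1 hz) (fun z hz => h2 hz) (fun z hz => h3 hz)
      fun z hz => h4 hz
  | htpy C hC =>
    exact Move.htpy (C.pull (Prod.map f id)) (g1.pull hC (hf.prodMap isProperMap_id))
  | stab c E => exact Move.stab (c.pull f) E
  | viso c V' e => exact Move.viso (c.pull f) V' e
  | wemb c W' j r hr => exact Move.wemb (c.pull f) W' j r hr

theorem pull (g1 : S_good1) (_g2 : S_good2) (_e : S_eqv) (s : S_sum) : S_pull := by
  intro X X' _ _ f hf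
  have hF : ∀ c : Raw X, c.Good → pull0 f (cls c) = cls (c.pull f) := fun c hc =>
    rep_lift (fun c => cls (c.pull f))
      (fun c c' hc hc' m => cls_move (g1.pull hc hf) (g1.pull hc' hf) (pull_move g1 hf c c' m)) hc
  refine ⟨hF, additive g1 s (fun c => c.pull f) (pull0 f) hF fun c G G' hc hG hG' hd hZ => ?_⟩
  have hk : Continuous fun z : X' × c.V => (f z.1, z.2) :=
    (hf.continuous.comp continuous_fst).prodMk continuous_snd
  exact s.1 (c.pull f) {z | (f z.1, z.2) ∈ G} {z | (f z.1, z.2) ∈ G'} (g1.pull hc hf)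
    (hG.preimage hk) (hG'.preimage hk) (hd.preimage _) fun z hz => hZ hz

/-- The exchange of the last two factors. -/
def exch (X E I : Type) [TopologicalSpace X] [TopologicalSpace E] [TopologicalSpace I] :
    (X × I) × E ≃ₜ (X × E) × I where
  toFun z := ((z.1.1, z.2), z.1.2)
  invFun z := ((z.1.1, z.2), z.1.2)
  left_inv _ := rfl
  right_inv _ := rfl
  continuous_toFun := by fun_prop
  continuous_invFun := by fun_prop

theorem pushV_move (g1 : S_good1) (E : FD) (c c' : Raw (X × E)) (hc : c.Good) (hc' : c'.Good)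
    (m : Move c c') : cls (c.pushV E) = cls (c'.pushV E) := by
  have a1 := g1.pushV E hc
  have a2 := g1.pushV E hc'
  cases m with
  | germ c O p s h1 h2 h3 h4 =>
    exact cls_move a1 a2 (Move.germ (c.pushV E) {z | ((z.1, z.2.1), z.2.2) ∈ O}
      (fun z => p ((z.1, z.2.1), z.2.2)) (fun z => s ((z.1, z.2.1), z.2.2)) (fun z hz => h1 hz)
      (fun z hz => h2 hz) (fun z hz => h3 hz) fun z hz => h4 hz)
  | htpy C hC =>
    exact cls_move a1 a2 (Move.htpy ((C.pull (exch X E unitInterval)).pushV E)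
      (g1.pushV E (g1.pull hC (exch X E unitInterval).isProperMap)))
  | stab c E' =>
    have a3 := g1.stab E' a1
    rw [cls_move a1 a3 (Move.stab _ E')]
    exact cls_move a3 a2 (Move.viso ((c.pushV E).stab E') (E.prod (c.V.prod E'))
      (ContinuousLinearEquiv.prodAssoc ℂ E c.V E').symm)
  | viso c V' e =>
    exact cls_move a1 a2 (Move.viso (c.pushV E) (E.prod V')
      ((ContinuousLinearEquiv.refl ℂ E).prodCongr e))
  | wemb c W' j r hr => exact cls_move a1 a2 (Move.wemb (c.pushV E) W' j r hr)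

theorem pushV (g1 : S_good1) (_g2 : S_good2) (_e : S_eqv) (s : S_sum) : S_pushV := by
  intro X _ E
  have hF : ∀ c : Raw (X × E), c.Good → pushV0 E (cls c) = cls (c.pushV E) := fun c hc =>
    rep_lift (fun c => cls (c.pushV E)) (pushV_move g1 E) hc
  refine ⟨hF, additive g1 s (fun c => c.pushV E) (pushV0 E) hF fun c G G' hc hG hG' hd hZ => ?_⟩
  have hk : Continuous fun z : X × (E × c.V) => ((z.1, z.2.1), z.2.2) := by fun_prop
  exact s.1 (c.pushV E) {z | ((z.1, z.2.1), z.2.2) ∈ G} {z | ((z.1, z.2.1), z.2.2) ∈ G'}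
    (g1.pushV E hc) (hG.preimage hk) (hG'.preimage hk) (hd.preimage _) fun z hz => hZ hz

/-- The zero set of a section on a cylinder. -/
def cyl {W : Type} [Zero W] (σ : X' → W) (I : Type) [TopologicalSpace I] :
    {x : X' × I // σ x.1 = 0} ≃ₜ {x : X' // σ x = 0} × I where
  toFun z := (⟨z.1.1, z.2⟩, z.1.2)
  invFun z := ⟨(z.1.1, z.2), z.1.2⟩
  left_inv _ := rfl
  right_inv _ := rfl
  continuous_toFun := by fun_prop
  continuous_invFun := by fun_prop

theorem tw_cyl {g : C(X', X)} {ξ : Bun X'} {σ : C(X', ξ.W)} (hT : Tw g ξ σ) (I : Type)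
    [TopologicalSpace I] :
    Tw (g.prodMap (ContinuousMap.id I)) (ξ.pull ContinuousMap.fst) (σ.comp ContinuousMap.fst) :=
  ⟨fun x => hT.1 x.1, (hT.2.prodMap (isProperMap_id (X := I))).comp (cyl σ I).isProperMap⟩

theorem twist_move (g1 : S_good1) (g2 : S_good2) {g : C(X', X)} {ξ : Bun X'} {σ : C(X', ξ.W)}
    (hT : Tw g ξ σ) (c c' : Raw X) (hc : c.Good) (hc' : c'.Good) (m : Move c c') :
    cls (c.twist g ξ σ) = cls (c'.twist g ξ σ) := by
  have a1 := g2.twist hc hT
  have a2 := g2.twist hc' hT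
  cases m with
  | germ c O p s h1 h2 h3 h4 =>
    exact cls_move a1 a2 (Move.germ (c.twist g ξ σ) {z | (g z.1, z.2) ∈ O}
      (fun z => (p (g z.1, z.2)).prodMap (ξ.p z.1)) (fun z => (s (g z.1, z.2), σ z.1))
      (fun z hz => h1 hz)
      (fun z hz => congrArg (fun q => ContinuousLinearMap.prodMap q (ξ.p z.1)) (h2 hz))
      (fun z hz => congrArg (fun q => (q, σ z.1)) (h3 hz))
      fun z hz => h4 ⟨hz.1, congrArg Prod.fst hz.2⟩)
  | htpy C hC =>
    exact cls_move a1 a2 (Move.htpy _ (g2.twist hC (tw_cyl hT unitInterval)))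
  | stab c E =>
    have a3 := g1.stab E a1
    rw [cls_move a1 a3 (Move.stab _ E)]
    refine cls_const g1 _ _ a3 a2 (ContinuousLinearEquiv.refl ℂ _)
      (((ContinuousLinearMap.fst ℂ c.W ξ.W ∘L ContinuousLinearMap.fst ℂ _ E).prod
        (ContinuousLinearMap.snd ℂ _ E)).prod
        (ContinuousLinearMap.snd ℂ c.W ξ.W ∘L ContinuousLinearMap.fst ℂ _ E))
      (((ContinuousLinearMap.fst ℂ c.W E ∘L ContinuousLinearMap.fst ℂ _ ξ.W).prod
        (ContinuousLinearMap.snd ℂ _ ξ.W)).prod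
        (ContinuousLinearMap.snd ℂ c.W E ∘L ContinuousLinearMap.fst ℂ _ ξ.W))
      rfl (fun z => Iff.rfl) (fun z _ => rfl) fun z _ => rfl
  | viso c V' e => exact cls_move a1 a2 (Move.viso (c.twist g ξ σ) V' e)
  | wemb c W' j r hr =>
    refine cls_const g1 _ _ a1 a2 (ContinuousLinearEquiv.refl ℂ _)
      (j.prodMap (ContinuousLinearMap.id ℂ ξ.W)) (r.prodMap (ContinuousLinearMap.id ℂ ξ.W))
      ?_ (fun z => Iff.rfl) (fun z _ => rfl) fun z _ => rfl
    exact ContinuousLinearMap.ext fun w =>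
      Prod.ext (congrArg (fun q : c.W →L[ℂ] c.W => q w.1) hr) rfl

theorem twist (g1 : S_good1) (g2 : S_good2) (_e : S_eqv) (s : S_sum) : S_twist := by
  intro X X' _ _ g ξ σ hT
  have hF : ∀ c : Raw X, c.Good → twist0 g ξ σ (cls c) = cls (c.twist g ξ σ) := fun c hc =>
    rep_lift (fun c => cls (c.twist g ξ σ)) (twist_move g1 g2 hT) hc
  refine ⟨hF, additive g1 s (fun c => c.twist g ξ σ) (twist0 g ξ σ) hF
    fun c G G' hc hG hG' hd hZ => ?_⟩
  have hk : Continuous fun z : X' × c.V => (g z.1, z.2) := by fun_prop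
  exact s.1 (c.twist g ξ σ) {z | (g z.1, z.2) ∈ G} {z | (g z.1, z.2) ∈ G'} (g2.twist hc hT)
    (hG.preimage hk) (hG'.preimage hk) (hd.preimage _)
    fun z hz => hZ ⟨hz.1, congrArg Prod.fst hz.2⟩

end

end Pool.Agent.MP_826def_gt.BA
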