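import Pool.Agent.MP_826def_gt.MU.Core

/-!
Extension by zero along an open embedding and the degree parts are well defined and additive.
-/

namespace Pool.Agent.MP_826def_gt.BA

open Set Topology MU

noncomputable section

variable {X U : Type} [TopologicalSpace X] [TopologicalSpace U]

theorem push_proper_mk (t : unitInterval) : IsProperMap fun x : X => (x, t) := by
  refine IsClosedEmbedding.isProperMap ⟨isEmbedding_prodMkLeft t, ?_⟩
  have : range (fun x : X => (x, t)) = Prod.snd ⁻¹' {t} := by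
    ext ⟨x, s⟩
    simp [eq_comm]
  rw [this]
  exact isClosed_singleton.preimage continuous_snd

/-- Two cocycles that differ only in the name of the domain. -/
theorem push_cls_set {V W : FD} {O O' : Set (X × V)} (p : X × V → W →L[ℂ] W) (s : X × V → W)
    (e : O = O') : cls (⟨V, W, O, p, s⟩ : Raw X) = cls (⟨V, W, O', p, s⟩ : Raw X) := by
  rw [e]

omit [TopologicalSpace X] [TopologicalSpace U] in
theorem push_ext {j : U → X} (hj : Function.Injective j) {V β : Type} (f : U × V → β)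
    (g : X × V → β) (u : U) (v : V) :
    Function.extend (Prod.map j id) f g (j u, v) = f (u, v) :=
  (hj.prodMap Function.injective_id).extend_apply f g (u, v)

/-- A cocycle whose zeros lie over the image and that extends `c` has the class of `c.push j`. -/
theorem push_germ {j : U → X} (hj : Function.Injective j) (c : Raw U) (O : Set (X × c.V))
    (p : X × c.V → c.W →L[ℂ] c.W) (s : X × c.V → c.W)
    (g : (⟨c.V, c.W, O, p, s⟩ : Raw X).Good) (g' : (c.push j).Good)
    (h1 : ∀ u v, (u, v) ∈ c.O → (j u, v) ∈ O ∧ p (j u, v) = c.p (u, v) ∧ s (j u, v) = c.s (u, v))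
    (h2 : ∀ x v, (x, v) ∈ O → s (x, v) = 0 → ∃ u, (u, v) ∈ c.O ∧ j u = x) :
    cls (⟨c.V, c.W, O, p, s⟩ : Raw X) = cls (c.push j) := by
  refine cls_move g g' (Move.germ (⟨c.V, c.W, O, p, s⟩ : Raw X) _ _ _ ?_ ?_ ?_ ?_)
  · rintro _ ⟨⟨u, v⟩, h, rfl⟩
    exact (h1 u v h).1
  · rintro _ ⟨⟨u, v⟩, h, rfl⟩
    exact (push_ext hj c.p 0 u v).trans (h1 u v h).2.1.symm
  · rintro _ ⟨⟨u, v⟩, h, rfl⟩
    exact (push_ext hj c.s 0 u v).trans (h1 u v h).2.2.symm
  · rintro ⟨x, v⟩ ⟨h, hs⟩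
    obtain ⟨u, hu, rfl⟩ := h2 x v h hs
    exact ⟨(u, v), hu, rfl⟩

theorem push_move (g1 : S_good1) (g2 : S_good2) {j : U → X} (hj : IsOpenEmbedding j)
    (c c' : Raw U) (hc : c.Good) (hc' : c'.Good) (m : Move c c') :
    cls (c.push j) = cls (c'.push j) := by
  have inj := hj.injective
  cases m with
  | germ c O p s hO hp hs hZ =>
    refine push_germ inj ⟨c.V, c.W, O, p, s⟩ _ _ _ (g2.push hc hj) (g2.push hc' hj) ?_ ?_
    · intro u v h
      exact ⟨⟨(u, v), hO h, rfl⟩, (push_ext inj c.p 0 u v).trans (hp h).symm,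
        (push_ext inj c.s 0 u v).trans (hs h).symm⟩
    · rintro _ _ ⟨⟨u, v⟩, h, ⟨⟩⟩ h0
      exact ⟨u, hZ ⟨h, (push_ext inj c.s 0 u v).symm.trans h0⟩, rfl⟩
  | htpy C hC =>
    have hJ : IsOpenEmbedding (Prod.map j (id : unitInterval → unitInterval)) :=
      hj.prodMap IsOpenEmbedding.id
    have hD := g2.push hC hJ
    have key : ∀ t : unitInterval, (C.pull fun x => (x, t)).Good →
        cls ((C.push (Prod.map j id)).pull fun x => (x, t)) =
          cls ((C.pull fun x => (x, t)).push j) := by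
      intro t ht
      refine push_germ inj (C.pull fun x => (x, t)) _ _ _ (g1.pull hD (push_proper_mk t))
        (g2.push ht hj) ?_ ?_
      · intro u v h
        exact ⟨⟨((u, t), v), h, rfl⟩, push_ext hJ.injective C.p 0 (u, t) v,
          push_ext hJ.injective C.s 0 (u, t) v⟩
      · rintro x v ⟨⟨⟨u, t'⟩, v'⟩, h, e⟩ _
        obtain ⟨⟨rfl, rfl⟩, rfl⟩ : (j u = x ∧ t' = t) ∧ v' = v := by simpa using e
        exact ⟨u, h, rfl⟩
    rw [← key 0 hc, ← key 1 hc']
    exact cls_move (g1.pull hD (push_proper_mk 0)) (g1.pull hD (push_proper_mk 1)) (Move.htpy _ hD)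
  | stab c E =>
    have hD := g2.push hc hj
    rw [cls_move hD (g1.stab E hD) (Move.stab _ E)]
    refine push_germ inj (c.stab E) _ _ _ (g1.stab E hD) (g2.push hc' hj) ?_ ?_
    · intro u v h
      exact ⟨⟨(u, v.1), h, rfl⟩,
        congrArg (fun q : c.W →L[ℂ] c.W => q.prodMap (ContinuousLinearMap.id ℂ E))
          (push_ext inj c.p 0 u v.1),
        congrArg (fun q : c.W => (q, v.2)) (push_ext inj c.s 0 u v.1)⟩
    · rintro x v ⟨⟨u, v'⟩, h, e⟩ _
      obtain ⟨rfl, rfl⟩ : j u = x ∧ v' = v.1 := by simpa using e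
      exact ⟨u, h, rfl⟩
  | viso c V' e =>
    have hD := g2.push hc hj
    have hE := g1.viso (c := c.push j) V' e hD
    rw [cls_move hD hE (Move.viso (c.push j) V' e)]
    refine push_germ inj (c.viso V' e) _ _ _ hE (g2.push hc' hj) ?_ ?_
    · intro u v h
      exact ⟨⟨(u, e v), h, rfl⟩, push_ext inj c.p 0 u (e v), push_ext inj c.s 0 u (e v)⟩
    · rintro x v ⟨⟨u, v'⟩, h, e'⟩ _
      obtain ⟨rfl, rfl⟩ : j u = x ∧ v' = e v := by simpa using e'
      exact ⟨u, h, rfl⟩
  | wemb c W' i r hr =>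
    have hD := g2.push hc hj
    have hE := g1.wemb (c := c.push j) W' i r hr hD
    rw [cls_move hD hE (Move.wemb (c.push j) W' i r hr)]
    refine push_germ inj (c.wemb W' i r) _ _ _ hE (g2.push hc' hj) ?_ ?_
    · intro u v h
      exact ⟨⟨(u, v), h, rfl⟩,
        congrArg (fun q : c.W →L[ℂ] c.W => i ∘L q ∘L r) (push_ext inj c.p 0 u v),
        congrArg i (push_ext inj c.s 0 u v)⟩
    · rintro _ _ ⟨⟨u, v⟩, h, ⟨⟩⟩ _
      exact ⟨u, h, rfl⟩

theorem push_cls (g1 : S_good1) (g2 : S_good2) {j : U → X} (hj : IsOpenEmbedding j) (c : Raw U)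
    (hc : c.Good) : push0 j (cls c) = cls (c.push j) :=
  rep_lift (fun c : Raw U => cls (c.push j)) (push_move g1 g2 hj) hc

theorem push (g1 : S_good1) (g2 : S_good2) (_e : S_eqv) (s : S_sum) : S_push := by
  intro X U _ _ j hj
  refine ⟨push_cls g1 g2 hj, fun x y => ?_⟩
  obtain ⟨c, G, G', hc, hG, hG', hd, hZ, rfl, rfl⟩ := s.2.1 x y
  have inj := hj.injective
  have hJ : IsOpenEmbedding (Prod.map j (id : c.V → c.V)) := hj.prodMap IsOpenEmbedding.id
  have hD := g2.push hc hj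
  have hZ' : (c.push j).Z ⊆ Prod.map j id '' G ∪ Prod.map j id '' G' := by
    rintro _ ⟨⟨⟨u, v⟩, h, rfl⟩, h0⟩
    rw [← image_union]
    exact mem_image_of_mem _ (hZ ⟨h, (push_ext inj c.s 0 u v).symm.trans h0⟩)
  have hd' : Disjoint (Prod.map j id '' G) (Prod.map j id '' G') :=
    (disjoint_image_iff hJ.injective).2 hd
  have r1 := g1.res' hc hG hG' hd hZ
  have r2 := g1.res' hc hG' hG hd.symm (union_comm G G' ▸ hZ)
  rw [← s.1 c G G' hc hG hG' hd hZ, push_cls g1 g2 hj c hc, push_cls g1 g2 hj _ r1,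
    push_cls g1 g2 hj _ r2,
    s.1 (c.push j) _ _ hD (hJ.isOpenMap _ hG) (hJ.isOpenMap _ hG') hd' hZ']
  congr 1
  · exact push_cls_set _ _ (image_inter hJ.injective).symm
  · exact push_cls_set _ _ (image_inter hJ.injective).symm

theorem part_rk_id (E : FD) : rk (ContinuousLinearMap.id ℂ E) = E.dim := by
  have : LinearMap.range ((ContinuousLinearMap.id ℂ E : E →L[ℂ] E) : E →ₗ[ℂ] E) = ⊤ :=
    LinearMap.range_id
  rw [rk, this, finrank_top]

theorem part_move (g1 : S_good1) (g2 : S_good2) (d : ℤ) (c c' : Raw X) (hc : c.Good)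
    (hc' : c'.Good) (m : Move c c') : cls (c.part d) = cls (c'.part d) := by
  have hD := (g2.deg d hc).2.2
  have hD' := (g2.deg d hc').2.2
  cases m with
  | germ c O p s hO hp hs hZ =>
    refine cls_move hD hD' (Move.germ (c.part d) _ _ _ ?_ ?_ ?_ ?_)
    · rintro z ⟨h, -, hr⟩
      exact ⟨hO h, hO h, (congrArg (fun q => (rk q : ℤ)) (hp h)).symm.trans hr⟩
    · exact hp.mono inter_subset_left
    · exact hs.mono inter_subset_left
    · rintro z ⟨⟨h, -, hr⟩, h0⟩
      have hz : z ∈ O := hZ ⟨h, h0⟩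
      exact ⟨hz, hz, (congrArg (fun q => (rk q : ℤ)) (hp hz)).trans hr⟩
  | htpy C hC => exact cls_move hD hD' (Move.htpy (C.part d) (g2.deg d hC).2.2)
  | stab c E =>
    rw [cls_move hD (g1.stab E hD) (Move.stab _ E)]
    refine push_cls_set _ _ (Set.ext fun z => and_congr_right fun _ => and_congr_right fun _ => ?_)
    have e1 := g2.rk_sum (c.p (z.1, z.2.1)) (ContinuousLinearMap.id ℂ E)
    have e2 : (c.V.prod E).dim = c.V.dim + E.dim := Module.finrank_prod
    show (rk (c.p (z.1, z.2.1)) : ℤ) = d + c.V.dim ↔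
      (rk (W := c.W.prod E) ((c.p (z.1, z.2.1)).prodMap (ContinuousLinearMap.id ℂ E)) : ℤ) =
        d + (c.V.prod E).dim
    rw [e1, e2, part_rk_id]
    push_cast
    omega
  | viso c V' e =>
    rw [cls_move hD (g1.viso (c := c.part d) V' e hD) (Move.viso (c.part d) V' e)]
    refine push_cls_set _ _ (Set.ext fun z => and_congr_right fun _ => and_congr_right fun _ => ?_)
    have e2 : V'.dim = c.V.dim := e.toLinearEquiv.finrank_eq
    show (rk (c.p (z.1, e z.2)) : ℤ) = d + c.V.dim ↔ (rk (c.p (z.1, e z.2)) : ℤ) = d + V'.dim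
    rw [e2]
  | wemb c W' i r hr =>
    rw [cls_move hD (g1.wemb (c := c.part d) W' i r hr hD) (Move.wemb (c.part d) W' i r hr)]
    refine push_cls_set _ _ (Set.ext fun z => and_congr_right fun h => and_congr_right fun _ => ?_)
    have hp := hc.idem z h
    have e1 : rk (c.p z) = rk (i ∘L c.p z ∘L r) := by
      refine g2.rk_iso _ _ (i ∘L c.p z) (c.p z ∘L r) hp (hc'.idem z h) ?_ ?_
      · rw [ContinuousLinearMap.comp_assoc, ← ContinuousLinearMap.comp_assoc r, hr,
          ContinuousLinearMap.id_comp, hp]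
      · rw [ContinuousLinearMap.comp_assoc, ← ContinuousLinearMap.comp_assoc (c.p z), hp]
    show (rk (c.p z) : ℤ) = d + c.V.dim ↔ (rk (i ∘L c.p z ∘L r) : ℤ) = d + c.V.dim
    rw [e1]

theorem part_cls (g1 : S_good1) (g2 : S_good2) (d : ℤ) (c : Raw X) (hc : c.Good) :
    part0 d (cls c) = cls (c.part d) :=
  rep_lift (fun c : Raw X => cls (c.part d)) (part_move g1 g2 d) hc

theorem part (g1 : S_good1) (g2 : S_good2) (_e : S_eqv) (s : S_sum) : S_part := by
  intro X _ d
  refine ⟨part_cls g1 g2 d, fun x y => ?_⟩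
  obtain ⟨c, G, G', hc, hG, hG', hd, hZ, rfl, rfl⟩ := s.2.1 x y
  have r1 := g1.res' hc hG hG' hd hZ
  have r2 := g1.res' hc hG' hG hd.symm (union_comm G G' ▸ hZ)
  have key : ∀ H : Set (X × c.V), (c.O ∩ c.deg d) ∩ H = (c.O ∩ H) ∩ (c.res H).deg d := fun H =>
    Set.ext fun z => ⟨fun h => ⟨⟨h.1.1, h.2⟩, ⟨h.1.1, h.2⟩, h.1.2.2⟩,
      fun h => ⟨⟨h.1.1, h.1.1, h.2.2⟩, h.1.2⟩⟩
  rw [← s.1 c G G' hc hG hG' hd hZ, part_cls g1 g2 d c hc, part_cls g1 g2 d _ r1,
    part_cls g1 g2 d _ r2,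
    s.1 (c.part d) G G' (g2.deg d hc).2.2 hG hG' hd fun z hz => hZ ⟨hz.1.1, hz.2⟩]
  congr 1
  · exact push_cls_set _ _ (key G)
  · exact push_cls_set _ _ (key G')

end

end Pool.Agent.MP_826def_gt.BA
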