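import Pool.Agent.MP_826def_gt.MU.Core

/-! A cocycle whose zero set is split by two disjoint open sets is the sum of its two parts. -/

namespace Pool.Agent.MP_826def_gt.BA

open Set Topology MU

noncomputable section

set_option linter.unusedSectionVars false

namespace Spl

variable {X Y : Type} [TopologicalSpace X] [TopologicalSpace Y]

/-- Pull back of a cocycle along a map of total spaces. -/
abbrev tr (S : Raw X) (D : Set (Y × S.V)) (Φ : Y × S.V → X × S.V) : Raw Y :=
  ⟨S.V, S.W, D, fun z => S.p (Φ z), fun z => S.s (Φ z)⟩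

theorem tr_good {S : Raw X} (hS : S.Good) {D : Set (Y × S.V)} {Φ : Y × S.V → X × S.V}
    (hD : IsOpen D) (hΦ : ContinuousOn Φ D) (hm : MapsTo Φ D S.O)
    (hc : IsCompact {z | z ∈ D ∧ S.s (Φ z) = 0}) : (tr S D Φ).Good :=
  ⟨hD, hS.cp.comp hΦ hm, hS.cs.comp hΦ hm, fun _ hz => hS.idem _ (hm hz),
    fun _ hz => hS.sec _ (hm hz), hc⟩

open Classical in
theorem cont_ite {α β : Type} [TopologicalSpace α] [TopologicalSpace β] {A B : Set α}
    {P : α → Prop} [DecidablePred P] {f g : α → β} (hA : IsOpen A) (hB : IsOpen B)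
    (pA : ∀ z ∈ A, P z) (pB : ∀ z ∈ B, ¬ P z) (hf : Continuous f) (hg : Continuous g) :
    ContinuousOn (fun z => if P z then f z else g z) (A ∪ B) := by
  rintro z (hz | hz)
  · refine (hf.continuousAt.congr ?_).continuousWithinAt
    filter_upwards [hA.mem_nhds hz] with w hw
    rw [if_pos (pA w hw)]
  · refine (hg.continuousAt.congr ?_).continuousWithinAt
    filter_upwards [hB.mem_nhds hz] with w hw
    rw [if_neg (pB w hw)]

theorem proper_slice (t : unitInterval) : IsProperMap fun x : X => (x, t) := by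
  refine IsClosedEmbedding.isProperMap ⟨isEmbedding_prodMkLeft t, ?_⟩
  have : range (fun x : X => (x, t)) = Prod.snd ⁻¹' {t} := by
    ext z
    constructor
    · rintro ⟨x, rfl⟩
      rfl
    · intro hz
      exact ⟨z.1, Prod.ext rfl (Eq.symm hz)⟩
  rw [this]
  exact isClosed_singleton.preimage continuous_snd

/-- The angle of the rotation. -/
def ang (l : unitInterval) : ℝ := max 0 (2 * (l : ℝ) - 1) * (Real.pi / 2)

def co (l : unitInterval) : ℂ := (Real.cos (ang l) : ℝ)

def si (l : unitInterval) : ℂ := (Real.sin (ang l) : ℝ)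

theorem ang_cont : Continuous ang := by
  unfold ang
  fun_prop

theorem co_cont : Continuous co :=
  Complex.continuous_ofReal.comp (Real.continuous_cos.comp ang_cont)

theorem si_cont : Continuous si :=
  Complex.continuous_ofReal.comp (Real.continuous_sin.comp ang_cont)

theorem co_si (l : unitInterval) : co l * co l + si l * si l = 1 := by
  unfold co si
  rw [← Complex.ofReal_mul, ← Complex.ofReal_mul, ← Complex.ofReal_add, ← sq, ← sq,
    Real.cos_sq_add_sin_sq, Complex.ofReal_one]

theorem small {l : unitInterval} (hl : (l : ℝ) < 1 / 2) : co l = 1 ∧ si l = 0 := by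
  have : ang l = 0 := by
    unfold ang
    rw [max_eq_left (by linarith), zero_mul]
  unfold co si
  rw [this]
  simp

theorem at_one : co 1 = 0 ∧ si 1 = 1 := by
  have : ang 1 = Real.pi / 2 := by
    unfold ang
    rw [max_eq_right (by norm_num)]
    norm_num
  unfold co si
  rw [this]
  simp

/-- The double stabilisation. -/
abbrev st (c : Raw X) : Raw X := (c.stab c.V).stab FD.C

def A (c : Raw X) (G : Set (X × c.V)) : Set ((X × unitInterval) × (st c).V) :=
  {z | (z.1.1, z.2.1.1) ∈ c.O ∩ G ∧ ((z.1.2 : ℝ) < 1 / 2 ∨ 0 < z.2.2.re)}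

def B (c : Raw X) (G : Set (X × c.V)) : Set ((X × unitInterval) × (st c).V) :=
  {z | (z.1.1, co z.1.2 • z.2.1.1 + si z.1.2 • z.2.1.2) ∈ c.O ∩ G ∧
    ((z.1.2 : ℝ) < 1 / 2 ∨ z.2.2.re < 0)}

def F1 (c : Raw X) (z : (X × unitInterval) × (st c).V) : X × (st c).V :=
  (z.1.1, (z.2.1, z.2.2 - ((z.1.2 : ℝ) : ℂ)))

def F2 (c : Raw X) (z : (X × unitInterval) × (st c).V) : X × (st c).V :=
  (z.1.1, ((co z.1.2 • z.2.1.1 + si z.1.2 • z.2.1.2, co z.1.2 • z.2.1.2 - si z.1.2 • z.2.1.1),
    z.2.2 + ((z.1.2 : ℝ) : ℂ)))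

open Classical in
def F (c : Raw X) (G : Set (X × c.V)) (z : (X × unitInterval) × (st c).V) : X × (st c).V :=
  if z ∈ A c G then F1 c z else F2 c z

theorem F1_cont (c : Raw X) : Continuous (F1 c) := by
  unfold F1
  fun_prop

theorem F2_cont (c : Raw X) : Continuous (F2 c) := by
  have h1 := co_cont
  have h2 := si_cont
  unfold F2
  fun_prop

variable {c : Raw X} {G G' : Set (X × c.V)}

theorem A_open (hc : c.Good) (hG : IsOpen G) : IsOpen (A c G) := by
  have a : Continuous fun z : (X × unitInterval) × (st c).V => (z.1.1, z.2.1.1) := by fun_prop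
  have b : Continuous fun z : (X × unitInterval) × (st c).V => (z.1.2 : ℝ) := by fun_prop
  have d : Continuous fun z : (X × unitInterval) × (st c).V => z.2.2.re := by fun_prop
  exact IsOpen.inter ((hc.op.inter hG).preimage a)
    (IsOpen.union (isOpen_lt b continuous_const) (isOpen_lt continuous_const d))

theorem B_open (hc : c.Good) (hG : IsOpen G) : IsOpen (B c G) := by
  have h1 := co_cont
  have h2 := si_cont
  have a : Continuous fun z : (X × unitInterval) × (st c).V =>
      (z.1.1, co z.1.2 • z.2.1.1 + si z.1.2 • z.2.1.2) := by fun_prop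
  have b : Continuous fun z : (X × unitInterval) × (st c).V => (z.1.2 : ℝ) := by fun_prop
  have d : Continuous fun z : (X × unitInterval) × (st c).V => z.2.2.re := by fun_prop
  exact IsOpen.inter ((hc.op.inter hG).preimage a)
    (IsOpen.union (isOpen_lt b continuous_const) (isOpen_lt d continuous_const))

theorem B_notA (hd : Disjoint G G') : ∀ z ∈ B c G', z ∉ A c G := by
  rintro z ⟨h1, h2⟩ ⟨h3, h4⟩
  by_cases hl : (z.1.2 : ℝ) < 1 / 2
  · rw [(small hl).1, (small hl).2, one_smul, zero_smul, add_zero] at h1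
    exact Set.disjoint_left.1 hd h3.2 h1.2
  · exact lt_asymm (h2.resolve_left hl) (h4.resolve_left hl)

theorem F_A {z} (hz : z ∈ A c G) : F c G z = F1 c z := if_pos hz

theorem F_B (hd : Disjoint G G') {z} (hz : z ∈ B c G') : F c G z = F2 c z :=
  if_neg (B_notA hd z hz)

/-- The homotopy. -/
abbrev H (c : Raw X) (G G' : Set (X × c.V)) : Raw (X × unitInterval) :=
  tr (st c) (A c G ∪ B c G') (F c G)

theorem H_good (hc : c.Good) (hs : (st c).Good) (hG : IsOpen G) (hG' : IsOpen G')
    (hd : Disjoint G G') (k : IsCompact (c.res G).Z) (k' : IsCompact (c.res G').Z) :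
    (H c G G').Good := by
  have h1 := co_cont
  have h2 := si_cont
  refine tr_good hs ((A_open hc hG).union (B_open hc hG')) ?_ ?_ ?_
  · classical
    unfold F
    convert cont_ite (P := fun z => z ∈ A c G) (A_open hc hG) (B_open hc hG') (fun _ h => h)
      (B_notA hd) (F1_cont c) (F2_cont c)
  · rintro z (hz | hz)
    · rw [F_A hz]
      exact hz.1.1
    · rw [F_B hd hz]
      exact hz.1.1
  · have e : {z | z ∈ A c G ∪ B c G' ∧ (st c).s (F c G z) = 0} =
        (fun q : (X × c.V) × unitInterval => (((q.1.1, q.2), ((q.1.2, 0), ((q.2 : ℝ) : ℂ))) :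
          (X × unitInterval) × (st c).V)) '' ((c.res G).Z ×ˢ univ) ∪
        (fun q : (X × c.V) × unitInterval => (((q.1.1, q.2),
          ((co q.2 • q.1.2, si q.2 • q.1.2), -((q.2 : ℝ) : ℂ))) :
          (X × unitInterval) × (st c).V)) '' ((c.res G').Z ×ˢ univ) := by
      ext ⟨⟨x, l⟩, ⟨v, w⟩, t⟩
      constructor
      · rintro ⟨hz | hz, h0⟩
        · rw [F_A hz] at h0
          have a1 : c.s (x, v) = 0 := congrArg (fun q => q.1.1) h0
          have a2 : w = 0 := congrArg (fun q => q.1.2) h0
          have a3 : t - ((l : ℝ) : ℂ) = 0 := congrArg (fun q => q.2) h0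
          refine Or.inl ⟨((x, v), l), ⟨⟨hz.1, a1⟩, trivial⟩, ?_⟩
          rw [a2, sub_eq_zero.1 a3]
        · rw [F_B hd hz] at h0
          have a1 : c.s (x, co l • v + si l • w) = 0 := congrArg (fun q => q.1.1) h0
          have a2 : co l • w - si l • v = 0 := congrArg (fun q => q.1.2) h0
          have a3 : t + ((l : ℝ) : ℂ) = 0 := congrArg (fun q => q.2) h0
          refine Or.inr ⟨((x, co l • v + si l • w), l), ⟨⟨hz.1, a1⟩, trivial⟩, ?_⟩
          have b1 : co l • (co l • v + si l • w) = v := by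
            linear_combination (norm := module) (co_si l) • v + si l • a2
          have b2 : si l • (co l • v + si l • w) = w := by
            linear_combination (norm := module) (co_si l) • w - co l • a2
          show ((x, l), ((co l • (co l • v + si l • w), si l • (co l • v + si l • w)),
            -((l : ℝ) : ℂ))) = _
          rw [b1, b2, eq_neg_of_add_eq_zero_left a3]
      · rintro (⟨⟨⟨x', v'⟩, l'⟩, ⟨⟨ho, hs0⟩, -⟩, he⟩ | ⟨⟨⟨x', v'⟩, l'⟩, ⟨⟨ho, hs0⟩, -⟩, he⟩)
        · rw [← he]
          have hz : (((x', l'), ((v', 0), ((l' : ℝ) : ℂ))) : (X × unitInterval) × (st c).V) ∈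
              A c G := by
            refine ⟨ho, ?_⟩
            show (l' : ℝ) < 1 / 2 ∨ 0 < (l' : ℝ)
            by_contra hh
            push Not at hh
            linarith [hh.1, hh.2]
          refine ⟨Or.inl hz, ?_⟩
          rw [F_A hz]
          exact Prod.ext (Prod.ext hs0 rfl) (sub_self _)
        · rw [← he]
          have b1 : co l' • co l' • v' + si l' • si l' • v' = v' := by
            linear_combination (norm := module) (co_si l') • v'
          have hz : (((x', l'), ((co l' • v', si l' • v'), -((l' : ℝ) : ℂ))) :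
              (X × unitInterval) × (st c).V) ∈ B c G' := by
            refine ⟨?_, ?_⟩
            · show (x', co l' • co l' • v' + si l' • si l' • v') ∈ c.O ∩ G'
              rw [b1]
              exact ho
            · show (l' : ℝ) < 1 / 2 ∨ -(l' : ℝ) < 0
              by_contra hh
              push Not at hh
              linarith [hh.1, hh.2]
          refine ⟨Or.inr hz, ?_⟩
          rw [F_B hd hz]
          refine Prod.ext (Prod.ext ?_ ?_) (neg_add_cancel _)
          · show c.s (x', co l' • co l' • v' + si l' • si l' • v') = 0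
            rw [b1]
            exact hs0
          · show co l' • si l' • v' - si l' • co l' • v' = 0
            rw [smul_comm, sub_self]
    rw [e]
    exact ((k.prod isCompact_univ).image (by fun_prop)).union
      ((k'.prod isCompact_univ).image (by fun_prop))

theorem F_zero (x : X) (y : (st c).V) : F c G ((x, 0), y) = (x, y) := by
  obtain ⟨⟨v, w⟩, t⟩ := y
  have h0 := small (l := 0) (by norm_num)
  unfold F
  split_ifs
  · simp [F1]
  · simp [F2, h0.1, h0.2]

theorem move_zero (hz : c.Z ⊆ G ∪ G') : Move (st c) ((H c G G').pull fun x => (x, 0)) := by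
  have h0 := small (l := 0) (by norm_num)
  refine Move.germ (st c) _ _ _ ?_ ?_ ?_ ?_
  · rintro z (h | h)
    · exact h.1.1
    · have := h.1.1
      simp only [h0.1, h0.2, one_smul, zero_smul, add_zero] at this
      exact this
  · intro z _
    show (st c).p (F c G ((z.1, 0), z.2)) = _
    rw [F_zero]
  · intro z _
    show (st c).s (F c G ((z.1, 0), z.2)) = _
    rw [F_zero]
  · rintro z ⟨h1, h2⟩
    have a1 : c.s (z.1, z.2.1.1) = 0 := congrArg (fun q => q.1.1) h2
    rcases hz ⟨h1, a1⟩ with h | h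
    · exact Or.inl ⟨⟨h1, h⟩, Or.inl (by norm_num)⟩
    · refine Or.inr ⟨?_, Or.inl (by norm_num)⟩
      simp only [h0.1, h0.2, one_smul, zero_smul, add_zero]
      exact ⟨h1, h⟩

theorem mem_one (z : X × (st c).V) :
    (((z.1, 1), z.2) ∈ A c G ↔ 0 < z.2.2.re ∧ (z.1, z.2.1.1) ∈ c.O ∩ G) ∧
      (((z.1, 1), z.2) ∈ B c G' ↔ z.2.2.re < 0 ∧ (z.1, z.2.1.2) ∈ c.O ∩ G') := by
  have n : ¬ (((1 : unitInterval) : ℝ) < 1 / 2) := by norm_num
  refine ⟨⟨fun h => ⟨h.2.resolve_left n, h.1⟩, fun h => ⟨h.2, Or.inr h.1⟩⟩,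
    ⟨fun h => ⟨h.2.resolve_left n, ?_⟩, fun h => ⟨?_, Or.inr h.1⟩⟩⟩
  · have := h.1
    simp only [at_one.1, at_one.2, one_smul, zero_smul, zero_add] at this
    exact this
  · simp only [at_one.1, at_one.2, one_smul, zero_smul, zero_add]
    exact h.2

end Spl

open Spl ContinuousLinearMap in
theorem split (g1 : S_good1) (g2 : S_good2) (e : S_eqv) : S_split := by
  intro X _ c G G' hc hG hG' hd hz
  have r1 : (c.res G).Good := g1.res' hc hG hG' hd hz
  have r2 : (c.res G').Good := g1.res' hc hG' hG hd.symm (by rwa [union_comm])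
  have s1 : (c.stab c.V).Good := g1.stab _ hc
  have s2 : (st c).Good := g1.stab _ s1
  have hH := H_good hc s2 hG hG' hd r1.cpt r2.cpt
  have p0 := g1.pull hH (proper_slice (X := X) 0)
  have p1 := g1.pull hH (proper_slice (X := X) 1)
  have hd' := g2.add r1 r2
  rw [cls_move hc s1 (Move.stab _ _), cls_move s1 s2 (Move.stab _ _),
    cls_move s2 p0 (move_zero hz), cls_move p0 p1 (Move.htpy _ hH)]
  have oP : IsOpen {z : X × (st c).V | 0 < z.2.2.re} := isOpen_lt continuous_const (by fun_prop)
  have oN : IsOpen {z : X × (st c).V | z.2.2.re < 0} := isOpen_lt (by fun_prop) continuous_const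
  have sub : ((c.res G).add (c.res G')).O ⊆
      {z : X × (st c).V | 0 < z.2.2.re} ∪ {z : X × (st c).V | z.2.2.re < 0} := fun z h =>
    h.imp And.left And.left
  let J : (c.W × c.V) →L[ℂ] (c.W × c.V) := (ContinuousLinearMap.id ℂ c.W).prodMap (-.id ℂ c.V)
  have dom : ∀ z : X × (st c).V, z ∈ ((H c G G').pull fun x => (x, 1)).O ↔
      z ∈ ((c.res G).add (c.res G')).O := fun z =>
    or_congr (mem_one (G' := G') z).1 (mem_one (G := G) z).2
  classical
  refine e _ _ (ContinuousLinearEquiv.refl ℂ _) ((c.res G).add (c.res G')).O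
    (fun z => (if 0 < z.2.2.re then (inl ℂ (c.W × c.V) (c.W × c.V)).prodMap (.id ℂ ℂ)
      else (inr ℂ (c.W × c.V) (c.W × c.V) ∘L J).prodMap (.id ℂ ℂ)) ∘L
        (((H c G G').pull fun x => (x, 1)).p z))
    (fun z => if 0 < z.2.2.re then (fst ℂ (c.W × c.V) (c.W × c.V)).prodMap (.id ℂ ℂ)
      else (J ∘L snd ℂ (c.W × c.V) (c.W × c.V)).prodMap (.id ℂ ℂ))
    p1 hd' hd'.op (fun _ h => h.1) (fun z h => (dom z).1 h.1) ?_ ?_ ?_
  · exact ((cont_ite (P := fun z : X × (st c).V => 0 < z.2.2.re) oP oN (fun _ h => h)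
      (fun z (h : z.2.2.re < 0) => lt_asymm h) continuous_const continuous_const).mono sub).clm_comp (p1.cp.mono fun z h => (dom z).2 h)
  · exact (cont_ite (P := fun z : X × (st c).V => 0 < z.2.2.re) oP oN (fun _ h => h)
      (fun z (h : z.2.2.re < 0) => lt_asymm h) continuous_const continuous_const).mono sub
  · rintro ⟨x, ⟨v, w⟩, t⟩ hz'
    refine ⟨hz', (dom _).2 hz', ?_⟩
    rcases hz' with h | h
    · have hA : (((x, 1), ((v, w), t)) : (X × unitInterval) × (st c).V) ∈ A c G :=
        (mem_one (G' := G') (x, (v, w), t)).1.2 h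
      have hF := F_A hA
      have ht : 0 < t.re := h.1
      have hs : c.p (x, v) (c.s (x, v)) = c.s (x, v) := hc.sec _ h.2.1
      simp only [ContinuousLinearEquiv.refl_apply, hF, F1, ht, if_true]
      refine ⟨?_, ?_, ?_⟩
      · ext <;> simp
      · ext <;> simp
      · simp [hs]
    · have hB : (((x, 1), ((v, w), t)) : (X × unitInterval) × (st c).V) ∈ B c G' :=
        (mem_one (G := G) (x, (v, w), t)).2.2 h
      have hF := F_B hd hB
      have ht : ¬ 0 < t.re := lt_asymm h.1
      have hs : c.p (x, w) (c.s (x, w)) = c.s (x, w) := hc.sec _ h.2.1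
      simp only [ContinuousLinearEquiv.refl_apply, hF, F2, ht, if_false, at_one.1, at_one.2,
        one_smul, zero_smul, zero_add]
      refine ⟨?_, ?_, ?_⟩
      · ext <;> simp [J]
      · ext <;> simp [J]
      · simp [hs, J]

end

end Pool.Agent.MP_826def_gt.BA
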