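import Pool.Agent.MP_826def_gt.BA.Good1
import Pool.Agent.MP_826def_gt.BA.Good2
import Pool.Agent.MP_826def_gt.BA.Eqv
import Pool.Agent.MP_826def_gt.BA.Add
import Pool.Agent.MP_826def_gt.BA.Split
import Pool.Agent.MP_826def_gt.BA.Half
import Pool.Agent.MP_826def_gt.BA.Eps
import Pool.Agent.MP_826def_gt.BA.Pull
import Pool.Agent.MP_826def_gt.BA.Push
import Pool.Agent.MP_826def_gt.BA.Prod

/-!
All basic facts on cocycles, assembled.
-/

namespace Pool.Agent.MP_826def_gt.BA

open Pool.Agent.MP_826def_gt.MU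

theorem core : Core := by
  have g1 : S_good1 := good1
  have g2 : S_good2 := good2
  have e : S_eqv := eqv g1
  have em : S_empty := empty g1
  have s : S_sum := sum g1 g2 e em (add g1 g2 e) (split g1 g2 e) (half g1 g2 e)
  have ep : S_eps := eps g1 g2 e em s
  have p : S_prod := prod g1 g2 e s
  exact ⟨g1, g2, e, em, s, ep, pull g1 g2 e s, push g1 g2 e s, pushV g1 g2 e s, twist g1 g2 e s, p,
    part g1 g2 e s, laws g1 g2 e em s ep p⟩

end Pool.Agent.MP_826def_gt.BA
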