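import Pool.Agent.MP_826def_gt.MU.Core

/-!
The elementary operations preserve cocycles, first part.
-/

namespace Pool.Agent.MP_826def_gt.BA

open Set Topology MU

noncomputable section

variable {X X' : Type} [TopologicalSpace X] [TopologicalSpace X']

/-- Pull back along a continuous map of the total spaces. -/
theorem good_comp {c : Raw X} (hc : c.Good) (V' : FD) (φ : X' × V' → X × c.V) (hφ : Continuous φ)
    (hK : IsCompact (φ ⁻¹' c.Z)) :
    (⟨V', c.W, φ ⁻¹' c.O, fun z => c.p (φ z), fun z => c.s (φ z)⟩ : Raw X').Good :=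
  ⟨hc.op.preimage hφ, hc.cp.comp hφ.continuousOn fun _ hz => hz,
    hc.cs.comp hφ.continuousOn fun _ hz => hz, fun _ hz => hc.idem _ hz, fun _ hz => hc.sec _ hz,
    hK⟩

theorem good_res {c : Raw X} {G : Set (X × c.V)} (hc : c.Good) (hG : IsOpen G)
    (hK : IsCompact (c.Z ∩ G)) : (c.res G).Good := by
  refine ⟨hc.op.inter hG, hc.cp.mono inter_subset_left, hc.cs.mono inter_subset_left,
    fun z hz => hc.idem z hz.1, fun z hz => hc.sec z hz.1, ?_⟩
  have : (c.res G).Z = c.Z ∩ G :=
    Set.ext fun z => ⟨fun hz => ⟨⟨hz.1.1, hz.2⟩, hz.1.2⟩, fun hz => ⟨⟨hz.1.1, hz.2⟩, hz.1.2⟩⟩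
  rw [this]
  exact hK

theorem good_res' {c : Raw X} {G G' : Set (X × c.V)} (hc : c.Good) (hG : IsOpen G)
    (hG' : IsOpen G') (hd : Disjoint G G') (hZ : c.Z ⊆ G ∪ G') : (c.res G).Good := by
  refine good_res hc hG ?_
  have : c.Z ∩ G = c.Z ∩ G'ᶜ := by
    ext z
    constructor
    · exact fun hz => ⟨hz.1, fun h' => Set.disjoint_left.1 hd hz.2 h'⟩
    · exact fun hz => ⟨hz.1, (hZ hz.1).resolve_right hz.2⟩
  rw [this]
  exact hc.cpt.inter_right hG'.isClosed_compl

theorem good_stab {c : Raw X} (E : FD) (hc : c.Good) : (c.stab E).Good := by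
  have hφ : Continuous fun z : X × (c.V.prod E) => (z.1, z.2.1) := by fun_prop
  have hp : ContinuousOn (fun z : X × (c.V.prod E) => c.p (z.1, z.2.1))
      {z | (z.1, z.2.1) ∈ c.O} := hc.cp.comp hφ.continuousOn fun _ hz => hz
  have hs : ContinuousOn (fun z : X × (c.V.prod E) => c.s (z.1, z.2.1))
      {z | (z.1, z.2.1) ∈ c.O} := hc.cs.comp hφ.continuousOn fun _ hz => hz
  refine ⟨hc.op.preimage hφ, ?_, ?_, ?_, ?_, ?_⟩
  · exact (ContinuousLinearMap.prodMapL ℂ c.W c.W E E).continuous.comp_continuousOn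
      (hp.prodMk continuousOn_const)
  · exact hs.prodMk (by fun_prop)
  · intro z hz
    exact ContinuousLinearMap.ext fun w =>
      Prod.ext (congrArg (fun q : c.W →L[ℂ] c.W => q w.1) (hc.idem _ hz)) rfl
  · intro z hz
    exact Prod.ext (hc.sec _ hz) rfl
  · have : (c.stab E).Z = (fun z : X × c.V => (z.1, (z.2, (0 : E)))) '' c.Z := by
      ext z
      constructor
      · rintro ⟨h1, h2⟩
        have h3 : c.s (z.1, z.2.1) = 0 := congrArg Prod.fst h2
        have h4 : z.2.2 = 0 := congrArg Prod.snd h2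
        exact ⟨(z.1, z.2.1), ⟨h1, h3⟩, Prod.ext rfl (Prod.ext rfl h4.symm)⟩
      · rintro ⟨y, ⟨h1, h2⟩, rfl⟩
        exact ⟨h1, Prod.ext h2 rfl⟩
    rw [this]
    exact hc.cpt.image (by fun_prop)

theorem good_wemb {c : Raw X} (W' : FD) (j : c.W →L[ℂ] W') (r : W' →L[ℂ] c.W)
    (hr : r ∘L j = ContinuousLinearMap.id ℂ c.W) (hc : c.Good) : (c.wemb W' j r).Good := by
  have hrj : ∀ w, r (j w) = w := fun w => congrArg (fun q : c.W →L[ℂ] c.W => q w) hr
  refine ⟨hc.op, continuousOn_const.clm_comp (hc.cp.clm_comp continuousOn_const),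
    j.continuous.comp_continuousOn hc.cs, ?_, ?_, ?_⟩
  · intro z hz
    refine ContinuousLinearMap.ext fun w => ?_
    have h1 : c.p z (c.p z (r w)) = c.p z (r w) :=
      congrArg (fun q : c.W →L[ℂ] c.W => q (r w)) (hc.idem z hz)
    show j (c.p z (r (j (c.p z (r w))))) = j (c.p z (r w))
    rw [hrj, h1]
  · intro z hz
    show j (c.p z (r (j (c.s z)))) = j (c.s z)
    rw [hrj, hc.sec z hz]
  · have : (c.wemb W' j r).Z = c.Z := by
      ext z
      constructor
      · rintro ⟨h1, h2⟩
        have h3 : j (c.s z) = 0 := h2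
        exact ⟨h1, by rw [← hrj (c.s z), h3, map_zero]⟩
      · rintro ⟨h1, h2⟩
        exact ⟨h1, show j (c.s z) = 0 by rw [h2, map_zero]⟩
    rw [this]
    exact hc.cpt

theorem good_eps : Raw.eps.Good := by
  refine ⟨isOpen_univ, continuousOn_const,
    (Complex.continuous_conj.comp continuous_snd).continuousOn, fun _ _ => rfl, fun _ _ => rfl, ?_⟩
  have : Raw.eps.Z = {((), (0 : ℂ))} := by
    ext z
    constructor
    · rintro ⟨-, h2⟩
      have h3 : (starRingEnd ℂ) z.2 = 0 := h2
      exact Prod.ext rfl ((map_eq_zero (starRingEnd ℂ)).1 h3)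
    · rintro rfl
      exact ⟨mem_univ _, map_zero (starRingEnd ℂ)⟩
  rw [this]
  exact isCompact_singleton

theorem good1 : S_good1 where
  res := good_res
  res' := good_res'
  pull := fun {_ _} _ _ {c} {f} hc hf =>
    good_comp hc c.V (Prod.map f id) (hf.continuous.prodMap continuous_id)
      ((hf.prodMap isProperMap_id).isCompact_preimage hc.cpt)
  pullO := fun {_ _} _ _ {c} {j} hc hj hZ =>
    good_comp hc c.V (Prod.map j id) (hj.continuous.prodMap continuous_id)
      (((hj.prodMap IsEmbedding.id).isInducing.isCompact_preimage_iff fun z hz => by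
        obtain ⟨u, hu⟩ := hZ z hz
        exact ⟨(u, z.2), Prod.ext hu rfl⟩).2 hc.cpt)
  stab := good_stab
  viso := fun {X} _ {c} V' e hc =>
    good_comp hc V' ((Homeomorph.refl X).prodCongr e.toHomeomorph) (Homeomorph.continuous _)
      ((Homeomorph.isCompact_preimage _).2 hc.cpt)
  wemb := good_wemb
  one := fun K _ _ => ⟨isOpen_univ, continuousOn_const, continuousOn_const,
    fun _ _ => ContinuousLinearMap.ext fun _ => rfl, fun _ _ => rfl, by
      have : (Raw.one K).Z = univ := eq_univ_of_forall fun _ => ⟨mem_univ _, rfl⟩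
      rw [this]
      exact isCompact_univ⟩
  eps := good_eps
  lift := fun {X} _ {c} hc =>
    good_comp (X' := X × c.V) hc FD.zero Prod.fst continuous_fst
      (isProperMap_fst_of_compactSpace.isCompact_preimage hc.cpt)
  pushV := fun {X} _ E {c} hc =>
    good_comp hc (E.prod c.V) (Homeomorph.prodAssoc X E c.V).symm (Homeomorph.continuous _)
      ((Homeomorph.isCompact_preimage _).2 hc.cpt)

end

end Pool.Agent.MP_826def_gt.BA
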